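import Pool.Agent.W842.BV.Incomp
import Pool.Agent.W456.BV.Forest
import Pool.Agent.W456.BV.Diff
import Pool.Agent.W485.BV.UD
import Pool.Agent.W240.BVBIN
import Pool.Agent.W320.BV.TRV
import Pool.Agent.W485.BV.H1
import Pool.Agent.W485.BV.H2
import Pool.Agent.W320.BV.H3
import Pool.Agent.W349.BVExt
import Pool.Agent.W45.BV.COD
import Pool.Agent.W462.BV.Link
import Pool.Agent.W417.BVDYA
import Pool.Agent.W515.BVSIX
import Pool.Agent.W523.BV.DBL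
import Pool.Agent.W523.BV.LIN
import Pool.Agent.W523.BV.NBR
import Pool.Agent.W523.BV.VLA
import Pool.Agent.W699.BVVC
import Pool.Agent.W333.BV.VLB
import Pool.Agent.W240.BVVC
import Pool.Agent.W460.BVVCB
import Pool.Agent.W571.BVPOL
import Pool.Agent.W397.BV.Pon
import Pool.Agent.W290.BV.RK
import Pool.Agent.W101.BVPIG
import Pool.Agent.W975.BVTRANS
import Pool.Agent.W417.BVASY

/-!
# Final assembly of the project BV
-/

set_option autoImplicit false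

namespace Pool.Agent.W842.BV

open Finset

/-- The lower bound with the VC-dimension `D + 1`. -/
theorem lower2 (hBL : S_DBL) (hLIN : S_LIN) (hSIX : S_SIX) (hVCM : S_VCM) (hPIG : S_PIG)
    (hTR : S_TRANS) (hASY : S_ASY) (D : ℕ) (hD : 1 ≤ D) :
    ∃ c : ℝ, 0 < c ∧ ∃ n₀ : ℕ, ∀ n : ℕ, n₀ ≤ n → ∃ H : Finset (Finset (Fin n)),
      Sparse 3 H ∧ (univ.image (nbr H)).vcDim ≤ D + 1 ∧
      c * (n : ℝ) ^ (2 - 2 / (D : ℝ)) ≤ H.card := by
  obtain ⟨c, hc, n₀, hn₀⟩ := hASY D hD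
  refine ⟨c, hc, n₀, fun n hn => ?_⟩
  obtain ⟨m, hm, hcard, hq⟩ := hn₀ n hn
  obtain ⟨r, hr, hpig⟩ := hPIG D m hD hm
  have hDm : 0 < D * m := Nat.mul_pos (by omega) (by omega)
  have hN : 8 * D * m ≠ 0 := by
    rw [mul_assoc]
    omega
  have : NeZero (8 * D * m) := ⟨hN⟩
  have hrR : r ≤ (D * m) ^ 2 := by
    refine hr.trans ?_
    rw [mul_pow]
    apply Nat.mul_le_mul_right
    nlinarith
  have hRN : 4 * (D * m) < 8 * D * m := by
    rw [mul_assoc 8]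
    omega
  obtain ⟨hl1, hl2, hl3, hl4⟩ := hLIN hBL D (8 * D * m) r (D * m) hD hrR hRN
  have hsix := hSIX (Vt D (8 * D * m)) (HS D (8 * D * m) r) hl1 hl3 hl4
  have hvc := hVCM D (8 * D * m) r (D * m) hD hrR hRN
  have hV : Fintype.card (Vt D (8 * D * m)) ≤ n := by
    refine le_trans (le_of_eq ?_) hcard
    simp only [Fintype.card_sum, Fintype.card_fun, ZMod.card, Fintype.card_fin]
    ring
  obtain ⟨H', h1, h2, h3⟩ := hTR (Vt D (8 * D * m)) (HS D (8 * D * m) r) n (D + 1) hV hl1 hsix hvc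
  refine ⟨H', h1, h2, ?_⟩
  rw [h3, hl2]
  exact hq _ hpig

theorem pF : S_FOREST := Pool.Agent.W456.BV.t_FOREST
theorem pE : S_EXT := Pool.Agent.W349.BVExt.t_EXT
theorem pC : S_COD := Pool.Agent.W45.BV.t_COD
theorem pD : S_DIFF := Pool.Agent.W456.BV.t_DIFF
theorem pL : S_LINK := Pool.Agent.W462.BV.t_LINK
theorem pY : S_DYA := Pool.Agent.W417.BV.t_DYA
theorem pH : S_HAUS :=
  Pool.Agent.W320.BV.t_H3 Pool.Agent.W320.BV.t_TRV Pool.Agent.W485.BV.t_UD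
    Pool.Agent.W240.BV.t_BIN Pool.Agent.W485.BV.t_H1 Pool.Agent.W485.BV.t_H2
theorem pRK : S_RK := Pool.Agent.W290.BV.t_RK
theorem pVCM : S_VCM :=
  Pool.Agent.W460.BVVCB.t_VCB Pool.Agent.W523.BV.t_DBL Pool.Agent.W523.BV.t_NBR
    Pool.Agent.W523.BV.t_VLA Pool.Agent.W333.BV.t_VLB Pool.Agent.W699.BVVC.t_VC1
    Pool.Agent.W699.BVVC.t_VC2 Pool.Agent.W699.BVVC.t_VC3 Pool.Agent.W240.BV.t_VC12
    Pool.Agent.W240.BV.t_VC13 Pool.Agent.W240.BV.t_VC23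

end Pool.Agent.W842.BV
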