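import Pool.Agent.W842.BV.Robust

/-!
# Incompressibility of the shadow, and the version for matrices of small rank
-/

set_option autoImplicit false

namespace Pool.Agent.W842.BV

open Finset

/-- the adjacency matrix of the shadow -/
noncomputable def adjM {n : ℕ} (H : Finset (Finset (Fin n))) (b w : Fin n) : ℝ :=
  if w ∈ nbr H b then 1 else 0

theorem adjM_dist {n : ℕ} (H : Finset (Finset (Fin n))) (b b' : Fin n) :
    ∑ w, |adjM H b w - adjM H b' w| = ((symmDiff (nbr H b) (nbr H b')).card : ℝ) := by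
  have h : ∀ w, |adjM H b w - adjM H b' w| =
      if w ∈ symmDiff (nbr H b) (nbr H b') then (1 : ℝ) else 0 := by
    intro w
    unfold adjM
    by_cases h1 : w ∈ nbr H b <;> by_cases h2 : w ∈ nbr H b' <;>
      simp [h1, h2, Finset.mem_symmDiff]
  rw [Finset.sum_congr rfl (fun w _ => h w)]
  rw [Finset.sum_ite_mem, Finset.univ_inter, Finset.sum_const, nsmul_eq_mul, mul_one]

theorem adjM_row {n : ℕ} (H : Finset (Finset (Fin n))) (b : Fin n) :
    ∑ w, adjM H b w = ((nbr H b).card : ℝ) := by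
  unfold adjM
  rw [Finset.sum_ite_mem, Finset.univ_inter, Finset.sum_const, nsmul_eq_mul, mul_one]

/-- One class of equal rows. -/
theorem incomp_class (hF : S_FOREST) (hE : S_EXT) (hC : S_COD) (hD : S_DIFF)
    {n s : ℕ} {H : Finset (Finset (Fin n))} (hs : 1 ≤ s) (hn : s + 3 ≤ n) (hS : Sparse s H)
    (P : Finset (Fin n)) (g : Fin n → ℝ) :
    ∑ b ∈ P, ((nbr H b).card : ℝ) ≤
      2 * s * (∑ b ∈ P, ∑ w, |adjM H b w - g w|) + ((s : ℝ) ^ 2 + s) * P.card + n := by
  have hs0 : (0 : ℝ) < s := by exact_mod_cast hs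
  rcases Nat.lt_or_ge P.card 2 with hP | hP
  · -- at most one vertex
    have h1 : ∑ b ∈ P, ((nbr H b).card : ℝ) ≤ n := by
      have h2 : ∑ b ∈ P, ((nbr H b).card : ℝ) ≤ ∑ b ∈ P, (n : ℝ) := by
        apply Finset.sum_le_sum
        intro b _
        exact_mod_cast nbr_card_le H b
      rw [Finset.sum_const, nsmul_eq_mul] at h2
      have h3 : (P.card : ℝ) ≤ 1 := by exact_mod_cast (by omega : P.card ≤ 1)
      have h4 : (P.card : ℝ) * n ≤ 1 * n := mul_le_mul_of_nonneg_right h3 (Nat.cast_nonneg n)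
      linarith
    have h5 : 0 ≤ ∑ b ∈ P, ∑ w, |adjM H b w - g w| :=
      Finset.sum_nonneg (fun b _ => Finset.sum_nonneg (fun w _ => abs_nonneg _))
    have h6 : 0 ≤ 2 * (s : ℝ) * (∑ b ∈ P, ∑ w, |adjM H b w - g w|) := by positivity
    have h7 : 0 ≤ ((s : ℝ) ^ 2 + s) * P.card := by positivity
    linarith
  · set m : ℝ := (P.card : ℝ) - 1 with hm
    have hm1 : 1 ≤ m := by
      have : (2 : ℝ) ≤ P.card := by exact_mod_cast hP
      rw [hm]
      linarith
    obtain ⟨X, hXd⟩ : ∃ X : Fin n → ℝ, ∀ b, X b = ∑ w, |adjM H b w - g w| := ⟨_, fun _ => rfl⟩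
    have hXs : ∑ b ∈ P, ∑ w, |adjM H b w - g w| = ∑ b ∈ P, X b :=
      Finset.sum_congr rfl (fun b _ => (hXd b).symm)
    rw [hXs]
    have hpair : ∀ b ∈ P, ∀ b' ∈ P.erase b,
        ((nbr H b).card : ℝ) ≤ s * (X b + X b') + ((s : ℝ) ^ 2 + s) := by
      intro b hb b' hb'
      have hne : b ≠ b' := (Finset.ne_of_mem_erase hb').symm
      have h1 := hD hF hE hC n s H hs hn hS b b' hne
      have h2 : ((nbr H b).card : ℝ) ≤
          s * ((symmDiff (nbr H b) (nbr H b')).card : ℝ) + (s : ℝ) ^ 2 + s := by exact_mod_cast h1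
      have h3 : ((symmDiff (nbr H b) (nbr H b')).card : ℝ) ≤ X b + X b' := by
        rw [← adjM_dist, hXd, hXd, ← Finset.sum_add_distrib]
        apply Finset.sum_le_sum
        intro w _
        have h4 : adjM H b w - adjM H b' w = (adjM H b w - g w) - (adjM H b' w - g w) := by ring
        rw [h4]
        exact abs_sub _ _
      have h5 : (s : ℝ) * ((symmDiff (nbr H b) (nbr H b')).card : ℝ) ≤ s * (X b + X b') :=
        mul_le_mul_of_nonneg_left h3 hs0.le
      linarith
    have hsum : ∑ b ∈ P, ∑ b' ∈ P.erase b, ((nbr H b).card : ℝ) ≤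
        ∑ b ∈ P, ∑ b' ∈ P.erase b, (s * (X b + X b') + ((s : ℝ) ^ 2 + s)) :=
      Finset.sum_le_sum (fun b hb => Finset.sum_le_sum (fun b' hb' => hpair b hb b' hb'))
    have hcard : ∀ b ∈ P, (((P.erase b).card : ℕ) : ℝ) = m := by
      intro b hb
      rw [Finset.card_erase_of_mem hb, hm, Nat.cast_sub (by omega)]
      simp
    have hL : ∑ b ∈ P, ∑ b' ∈ P.erase b, ((nbr H b).card : ℝ) =
        m * ∑ b ∈ P, ((nbr H b).card : ℝ) := by
      rw [Finset.mul_sum]
      apply Finset.sum_congr rfl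
      intro b hb
      rw [Finset.sum_const, nsmul_eq_mul, hcard b hb]
    have hX2 : ∑ b ∈ P, ∑ b' ∈ P.erase b, X b' = m * ∑ b ∈ P, X b := by
      have h1 : ∀ b ∈ P, ∑ b' ∈ P.erase b, X b' = (∑ b' ∈ P, X b') - X b := by
        intro b hb
        rw [← Finset.add_sum_erase P X hb]
        ring
      rw [Finset.sum_congr rfl h1, Finset.sum_sub_distrib, Finset.sum_const, nsmul_eq_mul, hm]
      ring
    have hX1 : ∑ b ∈ P, ∑ b' ∈ P.erase b, X b = m * ∑ b ∈ P, X b := by
      rw [Finset.mul_sum]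
      apply Finset.sum_congr rfl
      intro b hb
      rw [Finset.sum_const, nsmul_eq_mul, hcard b hb]
    have hR : ∑ b ∈ P, ∑ b' ∈ P.erase b, (s * (X b + X b') + ((s : ℝ) ^ 2 + s)) =
        m * (2 * s * (∑ b ∈ P, X b) + ((s : ℝ) ^ 2 + s) * P.card) := by
      have h1 : ∑ b ∈ P, ∑ b' ∈ P.erase b, (s * (X b + X b') + ((s : ℝ) ^ 2 + s)) =
          s * (∑ b ∈ P, ∑ b' ∈ P.erase b, X b + ∑ b ∈ P, ∑ b' ∈ P.erase b, X b') +
            ∑ b ∈ P, ∑ b' ∈ P.erase b, ((s : ℝ) ^ 2 + s) := by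
        rw [mul_add, Finset.mul_sum, Finset.mul_sum, ← Finset.sum_add_distrib,
          ← Finset.sum_add_distrib]
        apply Finset.sum_congr rfl
        intro b _
        rw [Finset.mul_sum, Finset.mul_sum, ← Finset.sum_add_distrib, ← Finset.sum_add_distrib]
        apply Finset.sum_congr rfl
        intro b' _
        ring
      have h2 : ∑ b ∈ P, ∑ b' ∈ P.erase b, ((s : ℝ) ^ 2 + s) = m * (((s : ℝ) ^ 2 + s) * P.card) := by
        have h3 : ∀ b ∈ P, ∑ b' ∈ P.erase b, ((s : ℝ) ^ 2 + s) = m * ((s : ℝ) ^ 2 + s) := by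
          intro b hb
          rw [Finset.sum_const, nsmul_eq_mul, hcard b hb]
        rw [Finset.sum_congr rfl h3, Finset.sum_const, nsmul_eq_mul]
        ring
      rw [h1, hX1, hX2, h2]
      ring
    rw [hL, hR] at hsum
    have h9 := le_of_mul_le_mul_left hsum (by linarith)
    have h10 : (0 : ℝ) ≤ n := Nat.cast_nonneg n
    linarith

/-- Incompressibility of the shadow: the distance to every matrix with at most `M` different rows. -/
theorem incompressible (hF : S_FOREST) (hE : S_EXT) (hC : S_COD) (hD : S_DIFF)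
    {n s M : ℕ} {H : Finset (Finset (Fin n))} (hs : 1 ≤ s) (hn : s + 3 ≤ n) (hS : Sparse s H)
    (f : Fin n → Fin M) (g : Fin M → Fin n → ℝ) :
    ∑ b, ((nbr H b).card : ℝ) ≤
      2 * s * (∑ b, ∑ w, |adjM H b w - g (f b) w|) + ((s : ℝ) ^ 2 + s + M) * n := by
  have h1 : ∀ i : Fin M, ∑ b ∈ univ.filter (fun b => f b = i), ((nbr H b).card : ℝ) ≤
      2 * s * (∑ b ∈ univ.filter (fun b => f b = i), ∑ w, |adjM H b w - g (f b) w|) +
        ((s : ℝ) ^ 2 + s) * (univ.filter (fun b => f b = i)).card + n := by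
    intro i
    have h2 := incomp_class hF hE hC hD hs hn hS (univ.filter (fun b => f b = i)) (g i)
    have h3 : ∑ b ∈ univ.filter (fun b => f b = i), ∑ w, |adjM H b w - g (f b) w| =
        ∑ b ∈ univ.filter (fun b => f b = i), ∑ w, |adjM H b w - g i w| := by
      apply Finset.sum_congr rfl
      intro b hb
      rw [(Finset.mem_filter.1 hb).2]
    rw [h3]
    exact h2
  have h4 := Finset.sum_le_sum (s := (univ : Finset (Fin M))) (fun i _ => h1 i)
  have h5 : ∑ i : Fin M, ∑ b ∈ univ.filter (fun b => f b = i), ((nbr H b).card : ℝ) =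
      ∑ b, ((nbr H b).card : ℝ) :=
    Finset.sum_fiberwise univ f _
  have h6 : ∑ i : Fin M, (∑ b ∈ univ.filter (fun b => f b = i), ∑ w, |adjM H b w - g (f b) w|) =
      ∑ b, ∑ w, |adjM H b w - g (f b) w| :=
    Finset.sum_fiberwise univ f _
  have h7 : ∑ i : Fin M, (((univ.filter (fun b => f b = i)).card : ℕ) : ℝ) = n := by
    have h8 : ∑ i : Fin M, (univ.filter (fun b => f b = i)).card = n := by
      have h9 := Finset.card_eq_sum_card_fiberwise (f := f) (s := (univ : Finset (Fin n)))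
        (t := (univ : Finset (Fin M))) (fun _ _ => Finset.mem_coe.2 (Finset.mem_univ _))
      rw [Finset.card_univ, Fintype.card_fin] at h9
      exact h9.symm
    exact_mod_cast h8
  rw [h5] at h4
  refine h4.trans (le_of_eq ?_)
  rw [Finset.sum_add_distrib, Finset.sum_add_distrib, ← Finset.mul_sum, ← Finset.mul_sum, h6, h7,
    Finset.sum_const, nsmul_eq_mul, Finset.card_univ, Fintype.card_fin]
  ring

/-- The version for matrices of small rank. -/
theorem rank_robust (hF : S_FOREST) (hE : S_EXT) (hC : S_COD) (hD : S_DIFF) (hH : S_HAUS)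
    (hL : S_LINK) (hRK : S_RK) (s : ℕ) (hs : 1 ≤ s) (ε : ℝ) (hε : 0 < ε) :
    ∃ δ : ℝ, 0 < δ ∧ ∃ c : ℝ, 0 < c ∧ ∃ N : ℕ, ∀ n : ℕ, N ≤ n →
      ∀ H : Finset (Finset (Fin n)), Sparse s H → ∀ G : Matrix (Fin n) (Fin n) ℝ,
        (G.rank : ℝ) ≤ c * Real.log n →
        ∑ b, ∑ w, (adjM H b w - G b w) ^ 2 ≤ δ * (n : ℝ) ^ 2 →
        (H.card : ℝ) ≤ ε * (n : ℝ) ^ 2 := by
  obtain ⟨δ, hδ, c, hc, N, hN⟩ := robust hF hE hC hD hH hL s hs ε hε
  refine ⟨δ / 4, by positivity, c / 2, by positivity, max N (⌈Real.exp (2 / c)⌉₊ + 1), ?_⟩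
  intro n hn H hS G hr hG
  have hnN : N ≤ n := le_trans (le_max_left _ _) hn
  have hne : ⌈Real.exp (2 / c)⌉₊ + 1 ≤ n := le_trans (le_max_right _ _) hn
  have h1 : Real.exp (2 / c) ≤ n := by
    have h3 := Nat.le_ceil (Real.exp (2 / c))
    have h4 : ((⌈Real.exp (2 / c)⌉₊ : ℕ) : ℝ) + 1 ≤ n := by exact_mod_cast hne
    linarith
  have hn0 : (0 : ℝ) < n := lt_of_lt_of_le (Real.exp_pos _) h1
  have h2 : 2 / c ≤ Real.log n := by
    rw [Real.le_log_iff_exp_le hn0]
    exact h1
  have h3 : 1 ≤ c / 2 * Real.log n := by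
    rw [div_le_iff₀ hc] at h2
    linarith
  refine hN n hnN H hS (fun b => univ.filter (fun w => (1 / 2 : ℝ) ≤ G b w)) ?_ ?_
  · have h4 := hRK n G
    have h5 : (((univ.image (fun b : Fin n =>
        univ.filter (fun w : Fin n => (1 / 2 : ℝ) ≤ G b w))).vcDim : ℕ) : ℝ) ≤ G.rank + 1 := by
      exact_mod_cast h4
    calc _ ≤ (G.rank : ℝ) + 1 := h5
      _ ≤ c / 2 * Real.log n + c / 2 * Real.log n := by linarith
      _ = c * Real.log n := by ring
  · push_cast
    have h6 : ∀ b : Fin n, ((symmDiff (nbr H b) (univ.filter (fun w => (1 / 2 : ℝ) ≤ G b w))).card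
        : ℝ) ≤ 4 * ∑ w, (adjM H b w - G b w) ^ 2 := by
      intro b
      have h7 : ((symmDiff (nbr H b) (univ.filter (fun w => (1 / 2 : ℝ) ≤ G b w))).card : ℝ) =
          ∑ w, if w ∈ symmDiff (nbr H b) (univ.filter (fun w => (1 / 2 : ℝ) ≤ G b w)) then
            (1 : ℝ) else 0 := by
        rw [Finset.sum_ite_mem, Finset.univ_inter, Finset.sum_const, nsmul_eq_mul, mul_one]
      rw [h7, Finset.mul_sum]
      apply Finset.sum_le_sum
      intro w _
      by_cases h8 : w ∈ nbr H b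
      · by_cases h9 : (1 / 2 : ℝ) ≤ G b w
        · have : w ∉ symmDiff (nbr H b) (univ.filter (fun w => (1 / 2 : ℝ) ≤ G b w)) := by
            simp only [Finset.mem_symmDiff, Finset.mem_filter, Finset.mem_univ, true_and]
            tauto
          rw [if_neg this]
          positivity
        · have h10 : w ∈ symmDiff (nbr H b) (univ.filter (fun w => (1 / 2 : ℝ) ≤ G b w)) := by
            simp only [Finset.mem_symmDiff, Finset.mem_filter, Finset.mem_univ, true_and]
            tauto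
          rw [if_pos h10]
          unfold adjM
          rw [if_pos h8]
          push Not at h9
          nlinarith
      · by_cases h9 : (1 / 2 : ℝ) ≤ G b w
        · have h10 : w ∈ symmDiff (nbr H b) (univ.filter (fun w => (1 / 2 : ℝ) ≤ G b w)) := by
            simp only [Finset.mem_symmDiff, Finset.mem_filter, Finset.mem_univ, true_and]
            tauto
          rw [if_pos h10]
          unfold adjM
          rw [if_neg h8]
          nlinarith
        · have : w ∉ symmDiff (nbr H b) (univ.filter (fun w => (1 / 2 : ℝ) ≤ G b w)) := by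
            simp only [Finset.mem_symmDiff, Finset.mem_filter, Finset.mem_univ, true_and]
            tauto
          rw [if_neg this]
          positivity
    calc ∑ b, ((symmDiff (nbr H b) (univ.filter (fun w => (1 / 2 : ℝ) ≤ G b w))).card : ℝ)
        ≤ ∑ b, 4 * ∑ w, (adjM H b w - G b w) ^ 2 := Finset.sum_le_sum (fun b _ => h6 b)
      _ = 4 * ∑ b, ∑ w, (adjM H b w - G b w) ^ 2 := by rw [Finset.mul_sum]
      _ ≤ 4 * (δ / 4 * (n : ℝ) ^ 2) := by linarith
      _ = δ * (n : ℝ) ^ 2 := by ring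

end Pool.Agent.W842.BV
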