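import Pool.Agent.W842.BV.Incomp

/-!
# Local forms: arbitrary sets of vertices of large degree in the shadow
-/

set_option autoImplicit false

namespace Pool.Agent.W842.BV

open Finset

/-- Incompressibility for an arbitrary set `B` of rows. -/
theorem incompressible_on (hF : S_FOREST) (hE : S_EXT) (hC : S_COD) (hD : S_DIFF)
    {n s M : ℕ} {H : Finset (Finset (Fin n))} (hs : 1 ≤ s) (hn : s + 3 ≤ n) (hS : Sparse s H)
    (B : Finset (Fin n)) (f : Fin n → Fin M) (g : Fin M → Fin n → ℝ) :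
    ∑ b ∈ B, ((nbr H b).card : ℝ) ≤
      2 * s * (∑ b ∈ B, ∑ w, |adjM H b w - g (f b) w|) + ((s : ℝ) ^ 2 + s) * B.card + M * n := by
  have h1 : ∀ i : Fin M, ∑ b ∈ B.filter (fun b => f b = i), ((nbr H b).card : ℝ) ≤
      2 * s * (∑ b ∈ B.filter (fun b => f b = i), ∑ w, |adjM H b w - g (f b) w|) +
        ((s : ℝ) ^ 2 + s) * (B.filter (fun b => f b = i)).card + n := by
    intro i
    have h2 := incomp_class hF hE hC hD hs hn hS (B.filter (fun b => f b = i)) (g i)
    have h3 : ∑ b ∈ B.filter (fun b => f b = i), ∑ w, |adjM H b w - g (f b) w| =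
        ∑ b ∈ B.filter (fun b => f b = i), ∑ w, |adjM H b w - g i w| := by
      apply Finset.sum_congr rfl
      intro b hb
      rw [(Finset.mem_filter.1 hb).2]
    rw [h3]
    exact h2
  have h4 := Finset.sum_le_sum (s := (univ : Finset (Fin M))) (fun i _ => h1 i)
  have h5 : ∑ i : Fin M, ∑ b ∈ B.filter (fun b => f b = i), ((nbr H b).card : ℝ) =
      ∑ b ∈ B, ((nbr H b).card : ℝ) :=
    Finset.sum_fiberwise B f _
  have h6 : ∑ i : Fin M, (∑ b ∈ B.filter (fun b => f b = i), ∑ w, |adjM H b w - g (f b) w|) =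
      ∑ b ∈ B, ∑ w, |adjM H b w - g (f b) w| :=
    Finset.sum_fiberwise B f _
  have h7 : ∑ i : Fin M, (((B.filter (fun b => f b = i)).card : ℕ) : ℝ) = B.card := by
    have h8 : ∑ i : Fin M, (B.filter (fun b => f b = i)).card = B.card := by
      have h9 := Finset.card_eq_sum_card_fiberwise (f := f) (s := B)
        (t := (univ : Finset (Fin M))) (fun _ _ => Finset.mem_coe.2 (Finset.mem_univ _))
      exact h9.symm
    exact_mod_cast h8
  rw [h5] at h4
  refine h4.trans (le_of_eq ?_)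
  rw [Finset.sum_add_distrib, Finset.sum_add_distrib, ← Finset.mul_sum, ← Finset.mul_sum, h6, h7,
    Finset.sum_const, nsmul_eq_mul, Finset.card_univ, Fintype.card_fin]

/-- Any five or more vertices of large degree have robustly complex neighbourhoods. -/
theorem robust_local (hF : S_FOREST) (hE : S_EXT) (hC : S_COD) (hD : S_DIFF) (hH : S_HAUS)
    (s : ℕ) (hs : 1 ≤ s) (ε : ℝ) (hε : 0 < ε) :
    ∃ δ : ℝ, 0 < δ ∧ ∃ c : ℝ, 0 < c ∧ ∃ N : ℕ, ∀ n : ℕ, N ≤ n →
      ∀ H : Finset (Finset (Fin n)), Sparse s H → ∀ B : Finset (Fin n), 5 ≤ B.card →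
        (∀ b ∈ B, ε * n ≤ (nbr H b).card) → ∀ M : Fin n → Finset (Fin n),
        ((B.image M).vcDim : ℝ) ≤ c * Real.log B.card →
        δ * n * B.card < ((∑ b ∈ B, (symmDiff (nbr H b) (M b)).card : ℕ) : ℝ) := by
  have hs0 : (0 : ℝ) < s := by exact_mod_cast hs
  set ρ : ℝ := ε / (8 * s) with hρ
  have hρ0 : 0 < ρ := by positivity
  set L : ℝ := max 1 (Real.log (22 / ρ)) with hLdef
  have hL1 : 1 ≤ L := le_max_left _ _
  set n₁ : ℕ := ⌈(2 * ((s : ℝ) ^ 2 + s)) / ε⌉₊ + ⌈1 / ρ⌉₊ + (s + 3) + 1 with hn₁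
  refine ⟨ρ / 2, by positivity, 1 / (2 * L), by positivity, n₁, ?_⟩
  intro n hn H hS B hBcard hdeg M hv
  by_contra hM
  push Not at hM
  -- consequences of the size of n
  have hnR : ((n₁ : ℕ) : ℝ) ≤ n := by exact_mod_cast hn
  have hce1 := Nat.le_ceil ((2 * ((s : ℝ) ^ 2 + s)) / ε)
  have hce2 := Nat.le_ceil (1 / ρ)
  have hn₁R : ((n₁ : ℕ) : ℝ) = (⌈(2 * ((s : ℝ) ^ 2 + s)) / ε⌉₊ : ℝ) + ⌈1 / ρ⌉₊ + (s + 3) + 1 := by
    rw [hn₁]; push_cast; ring
  have c1 : (0 : ℝ) ≤ (⌈(2 * ((s : ℝ) ^ 2 + s)) / ε⌉₊ : ℝ) := Nat.cast_nonneg _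
  have c2 : (0 : ℝ) ≤ (⌈1 / ρ⌉₊ : ℝ) := Nat.cast_nonneg _
  have hn3 : s + 3 ≤ n := by
    have : (s : ℝ) + 3 ≤ n := by linarith
    exact_mod_cast this
  have hn0 : (0 : ℝ) < n := by linarith
  have g1 : 2 * ((s : ℝ) ^ 2 + s) ≤ ε * n := by
    have : (2 * ((s : ℝ) ^ 2 + s)) / ε ≤ n := by linarith
    rw [div_le_iff₀ hε] at this
    linarith
  have g2 : 1 ≤ ρ * n := by
    have : 1 / ρ ≤ n := by linarith
    rw [div_le_iff₀ hρ0] at this
    linarith
  have hB5 : (5 : ℝ) ≤ B.card := by exact_mod_cast hBcard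
  -- separation
  have hsep : ∀ b ∈ B, ∀ b' ∈ B, b ≠ b' →
      4 * ρ * n ≤ ((symmDiff (nbr H b) (nbr H b')).card : ℝ) := by
    intro b hb b' _ hne
    have h1 := hD hF hE hC n s H hs hn3 hS b b' hne
    have h2 : ((nbr H b).card : ℝ) ≤
        s * ((symmDiff (nbr H b) (nbr H b')).card : ℝ) + (s : ℝ) ^ 2 + s := by exact_mod_cast h1
    have h3 : ε * n ≤ ((nbr H b).card : ℝ) := hdeg b hb
    have h4 : s * (4 * ρ * n) = ε * n / 2 := by rw [hρ]; field_simp; ring
    have h5 : s * (4 * ρ * n) ≤ s * ((symmDiff (nbr H b) (nbr H b')).card : ℝ) := by linarith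
    exact le_of_mul_le_mul_left h5 hs0
  -- the good vertices
  obtain ⟨B', hB'⟩ : ∃ B' : Finset (Fin n),
      B' = B.filter (fun b => ((symmDiff (nbr H b) (M b)).card : ℝ) ≤ ρ * n) := ⟨_, rfl⟩
  have hbad : ((B.filter (fun b => ¬ ((symmDiff (nbr H b) (M b)).card : ℝ) ≤ ρ * n)).card : ℝ) ≤
      B.card / 2 := by
    have h1 : ((B.filter (fun b => ¬ ((symmDiff (nbr H b) (M b)).card : ℝ) ≤ ρ * n)).card : ℝ) *
        (ρ * n) ≤ ρ / 2 * n * B.card := by
      refine le_trans ?_ hM
      push_cast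
      calc ((B.filter (fun b => ¬ ((symmDiff (nbr H b) (M b)).card : ℝ) ≤ ρ * n)).card : ℝ) *
            (ρ * n)
          = ∑ b ∈ B.filter (fun b => ¬ ((symmDiff (nbr H b) (M b)).card : ℝ) ≤ ρ * n), (ρ * n) := by
            rw [Finset.sum_const, nsmul_eq_mul]
        _ ≤ ∑ b ∈ B.filter (fun b => ¬ ((symmDiff (nbr H b) (M b)).card : ℝ) ≤ ρ * n),
            ((symmDiff (nbr H b) (M b)).card : ℝ) := by
            apply Finset.sum_le_sum
            intro b hb
            rw [Finset.mem_filter] at hb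
            exact le_of_lt (not_le.1 hb.2)
        _ ≤ ∑ b ∈ B, ((symmDiff (nbr H b) (M b)).card : ℝ) := by
            apply Finset.sum_le_sum_of_subset_of_nonneg (Finset.filter_subset _ _)
            intro b _ _
            exact Nat.cast_nonneg _
    have h2 : (B.card / 2 : ℝ) * (ρ * n) = ρ / 2 * n * B.card := by ring
    rw [← h2] at h1
    exact le_of_mul_le_mul_right h1 (by positivity)
  have hB'card : (B.card : ℝ) / 2 ≤ B'.card := by
    have h1 := Finset.card_filter_add_card_filter_not (s := B)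
      (fun b => ((symmDiff (nbr H b) (M b)).card : ℝ) ≤ ρ * n)
    rw [← hB'] at h1
    have h2 : (B'.card : ℝ) +
        ((B.filter (fun b => ¬ ((symmDiff (nbr H b) (M b)).card : ℝ) ≤ ρ * n)).card : ℝ) =
        B.card := by exact_mod_cast h1
    linarith
  have hsep' : ∀ b ∈ B', ∀ b' ∈ B', b ≠ b' →
      2 * ρ * n ≤ ((symmDiff (M b) (M b')).card : ℝ) := by
    intro b hb b' hb' hne
    rw [hB', Finset.mem_filter] at hb hb'
    have h1 := hsep b hb.1 b' hb'.1 hne
    have h2 := card_symmDiff_triangle (nbr H b) (M b) (nbr H b')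
    have h3 := card_symmDiff_triangle (M b) (M b') (nbr H b')
    rw [symmDiff_comm (M b') (nbr H b')] at h3
    have h4 : ((symmDiff (nbr H b) (nbr H b')).card : ℝ) ≤
        ((symmDiff (nbr H b) (M b)).card : ℝ) + (((symmDiff (M b) (M b')).card : ℝ) +
          ((symmDiff (nbr H b') (M b')).card : ℝ)) := by
      have : (symmDiff (nbr H b) (nbr H b')).card ≤ (symmDiff (nbr H b) (M b)).card +
          ((symmDiff (M b) (M b')).card + (symmDiff (nbr H b') (M b')).card) := by omega
      exact_mod_cast this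
    linarith [hb.2, hb'.2]
  -- packing
  obtain ⟨r, hr⟩ : ∃ r : ℕ, r = ⌈ρ * n⌉₊ := ⟨_, rfl⟩
  have hr1 : ρ * n ≤ r := by
    rw [hr]
    exact Nat.le_ceil _
  have hr2 : (r : ℝ) ≤ 2 * ρ * n := by
    have := Nat.ceil_lt_add_one (show (0 : ℝ) ≤ ρ * n by positivity)
    rw [← hr] at this
    linarith
  have hr0 : 1 ≤ r := by
    have : (1 : ℝ) ≤ r := by linarith
    exact_mod_cast this
  have hinj : Set.InjOn M B' := by
    intro b hb b' hb' h
    by_contra hne
    have h5 := hsep' b hb b' hb' hne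
    rw [h, symmDiff_self] at h5
    simp at h5
    linarith
  have hcard : (B'.image M).card = B'.card := Finset.card_image_of_injOn hinj
  have hrn : r ≤ n := by
    have h1 : 1 < B'.card := by
      have : (1 : ℝ) < B'.card := by linarith
      exact_mod_cast this
    obtain ⟨b, hb, b', hb', hne⟩ := Finset.one_lt_card.1 h1
    have h2 := hsep' b hb b' hb' hne
    have h3 : (symmDiff (M b) (M b')).card ≤ n := by
      have := Finset.card_le_univ (symmDiff (M b) (M b'))
      simpa using this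
    have h4 : (r : ℝ) ≤ n := by
      have : ((symmDiff (M b) (M b')).card : ℝ) ≤ n := by exact_mod_cast h3
      linarith
    exact_mod_cast h4
  have hpack : (B'.card : ℝ) ≤ (22 * n / r) ^ (B'.image M).vcDim := by
    rw [← hcard]
    have h6 := hH (Fin n) (B'.image M) r hr0 ?_ (by simpa using hrn)
    · simpa using h6
    · intro A hA A' hA' hne
      obtain ⟨b, hb, rfl⟩ := Finset.mem_image.1 hA
      obtain ⟨b', hb', rfl⟩ := Finset.mem_image.1 hA'
      have h7 := hsep' b hb b' hb' (fun h => hne (by rw [h]))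
      have : (r : ℝ) ≤ ((symmDiff (M b) (M b')).card : ℝ) := hr2.trans h7
      exact_mod_cast this
  have hrpos : (0 : ℝ) < r := by exact_mod_cast hr0
  have hbase : 22 * (n : ℝ) / r ≤ 22 / ρ := by
    rw [div_le_div_iff₀ hrpos hρ0]
    linarith
  have hone : (1 : ℝ) ≤ 22 * n / r := by
    rw [le_div_iff₀ hrpos]
    have : (r : ℝ) ≤ n := by exact_mod_cast hrn
    linarith
  have hB0 : (0 : ℝ) < B.card := by linarith
  have hfin : (B'.card : ℝ) ≤ Real.exp (Real.log B.card / 2) := by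
    calc (B'.card : ℝ) ≤ (22 * n / r) ^ (B'.image M).vcDim := hpack
      _ ≤ (22 / ρ) ^ (B'.image M).vcDim := by gcongr
      _ ≤ (22 / ρ) ^ (B.image M).vcDim := by
          apply pow_le_pow_right₀ (hone.trans hbase)
          apply Finset.vcDim_mono
          apply Finset.image_subset_image
          rw [hB']
          exact Finset.filter_subset _ _
      _ = Real.exp ((B.image M).vcDim * Real.log (22 / ρ)) := by
          rw [mul_comm, Real.exp_mul, Real.exp_log (by positivity), Real.rpow_natCast]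
      _ ≤ Real.exp (Real.log B.card / 2) := by
          apply Real.exp_le_exp.2
          calc ((B.image M).vcDim : ℝ) * Real.log (22 / ρ)
              ≤ ((B.image M).vcDim : ℝ) * L := by
                apply mul_le_mul_of_nonneg_left (le_max_right _ _) (Nat.cast_nonneg _)
            _ ≤ (1 / (2 * L) * Real.log B.card) * L := by
                apply mul_le_mul_of_nonneg_right hv (by linarith)
            _ = Real.log B.card / 2 := by field_simp
  have hsq : Real.exp (Real.log B.card / 2) * Real.exp (Real.log B.card / 2) = B.card := by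
    rw [← Real.exp_add, add_halves, Real.exp_log hB0]
  have h8 : (B.card : ℝ) / 2 ≤ Real.exp (Real.log B.card / 2) := hB'card.trans hfin
  have h9 : ((B.card : ℝ) / 2) * ((B.card : ℝ) / 2) ≤ B.card := by
    calc ((B.card : ℝ) / 2) * ((B.card : ℝ) / 2)
        ≤ Real.exp (Real.log B.card / 2) * Real.exp (Real.log B.card / 2) := by
          gcongr
      _ = B.card := hsq
  nlinarith

end Pool.Agent.W842.BV
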