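import Pool.Agent.W842.BV.Upper

/-!
# The qualitative form of the upper bound, and the lower bound
-/

set_option autoImplicit false

namespace Pool.Agent.W842.BV

open Finset

theorem sparse_of {n k : ℕ} (hk : 3 ≤ k) {H : Finset (Finset (Fin n))} (h3 : ∀ e ∈ H, e.card = 3)
    (hS : ∀ S : Finset (Fin n), S.card = k → (H.filter (fun e => e ⊆ S)).card < k - 3) :
    Sparse (k - 3) H := by
  refine ⟨h3, fun S hc => hS S ?_⟩
  omega

theorem sparse_pos {n s : ℕ} {H : Finset (Finset (Fin n))} (hn : s + 3 ≤ n) (hS : Sparse s H) :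
    1 ≤ s := by
  obtain ⟨S, -, hS2⟩ := Finset.exists_superset_card_eq (s := (∅ : Finset (Fin n))) (n := s + 3)
    (by simp) (by simpa using hn)
  have := hS.2 S hS2
  omega

/-- The Brown-Erdős-Sós conjecture for VC-dimension at most `c log n`. -/
theorem bes_log (hF : S_FOREST) (hE : S_EXT) (hC : S_COD) (hD : S_DIFF) (hH : S_HAUS)
    (hL : S_LINK) (hY : S_DYA) (k : ℕ) (hk : 3 ≤ k) (ε : ℝ) (hε : 0 < ε) :
    ∃ c : ℝ, 0 < c ∧ ∃ N : ℕ, ∀ n : ℕ, N ≤ n →
      ∀ H : Finset (Finset (Fin n)), (∀ e ∈ H, e.card = 3) →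
        (∀ S : Finset (Fin n), S.card = k → (H.filter (fun e => e ⊆ S)).card < k - 3) →
        ((univ.image (nbr H)).vcDim : ℝ) ≤ c * Real.log n → (H.card : ℝ) ≤ ε * (n : ℝ) ^ 2 := by
  set L : ℝ := max 1 (Real.log (40 * ((k - 3 : ℕ) : ℝ) ^ 3 / ε)) with hL'
  have hL1 : 1 ≤ L := le_max_left _ _
  refine ⟨1 / (2 * L), by positivity, max k (⌈Real.exp (2 * L)⌉₊ + 1), ?_⟩
  intro n hn H h3 hS hv
  have hnk : k ≤ n := le_trans (le_max_left _ _) hn
  have hne : ⌈Real.exp (2 * L)⌉₊ + 1 ≤ n := le_trans (le_max_right _ _) hn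
  have hSp := sparse_of hk h3 hS
  have hn3 : (k - 3) + 3 ≤ n := by omega
  have hs := sparse_pos hn3 hSp
  by_contra hcon
  push Not at hcon
  have h1 := vc_large hF hE hC hD hH hL hY hs hn3 hSp hε hcon.le
  have h2 : Real.exp (2 * L) < n := by
    have h3 := Nat.le_ceil (Real.exp (2 * L))
    have h4 : ((⌈Real.exp (2 * L)⌉₊ : ℕ) : ℝ) + 1 ≤ n := by exact_mod_cast hne
    linarith
  have h5 : 2 * L < Real.log n := by
    rw [Real.lt_log_iff_exp_lt (by linarith [Real.exp_pos (2 * L)])]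
    exact h2
  have hlogpos : 0 < Real.log n := by linarith
  have h6 : ((max 2 (univ.image (nbr H)).vcDim : ℕ) : ℝ) * L < Real.log n := by
    rw [Nat.cast_max, max_mul_of_nonneg _ _ (by linarith)]
    apply max_lt
    · push_cast
      exact h5
    · calc ((univ.image (nbr H)).vcDim : ℝ) * L ≤ (1 / (2 * L) * Real.log n) * L := by gcongr
        _ = Real.log n / 2 := by field_simp
        _ < Real.log n := by linarith
  have h7 : ((max 2 (univ.image (nbr H)).vcDim : ℕ) : ℝ) *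
      Real.log (40 * ((k - 3 : ℕ) : ℝ) ^ 3 / ε) ≤
      ((max 2 (univ.image (nbr H)).vcDim : ℕ) : ℝ) * L := by
    gcongr
    exact le_max_right _ _
  linarith

/-- A vertex of degree at most one can be removed: sparseness for `s` gives sparseness for `s + 1`
if `s < 5`. -/
theorem ups {n s : ℕ} {H : Finset (Finset (Fin n))} (hs : s < 5) (hS : Sparse s H) :
    Sparse (s + 1) H := by
  refine ⟨hS.1, ?_⟩
  intro S hSc
  by_contra hcon
  push Not at hcon
  obtain ⟨F, hF, hFc⟩ := Finset.exists_subset_card_eq hcon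
  have hdeg : ∑ v ∈ S, (F.filter (fun e => v ∈ e)).card = 3 * (s + 1) := by
    have h1 : ∑ v ∈ S, (F.filter (fun e => v ∈ e)).card = ∑ e ∈ F, (S.filter (fun v => v ∈ e)).card := by
      simp only [Finset.card_filter]
      rw [Finset.sum_comm]
    rw [h1]
    have h2 : ∀ e ∈ F, (S.filter (fun v => v ∈ e)).card = 3 := by
      intro e he
      have he' := Finset.mem_filter.1 (hF he)
      rw [← hS.1 e he'.1]
      congr 1
      ext v
      simp only [Finset.mem_filter]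
      exact ⟨fun h => h.2, fun h => ⟨he'.2 h, h⟩⟩
    rw [Finset.sum_congr rfl h2]
    simp [hFc, mul_comm]
  have hex : ∃ v ∈ S, (F.filter (fun e => v ∈ e)).card < 2 := by
    by_contra hno
    push Not at hno
    have h3 : S.card * 2 ≤ ∑ v ∈ S, (F.filter (fun e => v ∈ e)).card := by
      rw [← smul_eq_mul]
      exact Finset.card_nsmul_le_sum _ _ _ hno
    rw [hdeg, hSc] at h3
    omega
  obtain ⟨v, hv, hvd⟩ := hex
  have h4 : (S.erase v).card = s + 3 := by
    rw [Finset.card_erase_of_mem hv, hSc]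
    omega
  have h5 := hS.2 (S.erase v) h4
  have h6 : F.filter (fun e => ¬ v ∈ e) ⊆ H.filter (fun e => e ⊆ S.erase v) := by
    intro e he
    rw [Finset.mem_filter] at he
    have he' := Finset.mem_filter.1 (hF he.1)
    rw [Finset.mem_filter]
    refine ⟨he'.1, ?_⟩
    intro x hx
    rw [Finset.mem_erase]
    refine ⟨?_, he'.2 hx⟩
    rintro rfl
    exact he.2 hx
  have h7 := Finset.card_le_card h6
  have h8 := Finset.card_filter_add_card_filter_not (s := F) (fun e => v ∈ e)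
  omega

/-- The lower bound. -/
theorem lower (hBL : S_DBL) (hLIN : S_LIN) (hSIX : S_SIX) (hVCL : S_VCL) (hPIG : S_PIG)
    (hTR : S_TRANS) (hASY : S_ASY) (D : ℕ) (hD : 1 ≤ D) :
    ∃ c : ℝ, 0 < c ∧ ∃ n₀ : ℕ, ∀ n : ℕ, n₀ ≤ n → ∃ H : Finset (Finset (Fin n)),
      Sparse 3 H ∧ (univ.image (nbr H)).vcDim ≤ 3 * D + 3 ∧
      c * (n : ℝ) ^ (2 - 2 / (D : ℝ)) ≤ H.card := by
  obtain ⟨c, hc, n₀, hn₀⟩ := hASY D hD
  refine ⟨c, hc, n₀, fun n hn => ?_⟩
  obtain ⟨m, hm, hcard, hq⟩ := hn₀ n hn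
  obtain ⟨r, hr, hpig⟩ := hPIG D m hD hm
  have hDm : 0 < D * m := Nat.mul_pos (by omega) (by omega)
  have hN : 8 * D * m ≠ 0 := by
    rw [mul_assoc]
    omega
  haveI : NeZero (8 * D * m) := ⟨hN⟩
  have hrR : r ≤ (D * m) ^ 2 := by
    refine hr.trans ?_
    rw [mul_pow]
    apply Nat.mul_le_mul_right
    nlinarith
  have hRN : 4 * (D * m) < 8 * D * m := by
    rw [mul_assoc 8]
    omega
  obtain ⟨hl1, hl2, hl3, hl4⟩ := hLIN hBL D (8 * D * m) r (D * m) hD hrR hRN
  have hsix := hSIX (Vt D (8 * D * m)) (HS D (8 * D * m) r) hl1 hl3 hl4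
  have hvc := hVCL D (8 * D * m) r (D * m) hrR hRN
  have hV : Fintype.card (Vt D (8 * D * m)) ≤ n := by
    refine le_trans (le_of_eq ?_) hcard
    simp only [Fintype.card_sum, Fintype.card_fun, ZMod.card, Fintype.card_fin]
    ring
  obtain ⟨H', h1, h2, h3⟩ := hTR (Vt D (8 * D * m)) (HS D (8 * D * m) r) n (3 * D + 3) hV hl1 hsix hvc
  refine ⟨H', h1, h2, ?_⟩
  rw [h3, hl2]
  exact hq _ hpig

end Pool.Agent.W842.BV
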