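import Pool.Agent.W842.BV.Stms

/-!
# Second list of parts of the project BV (helper842, MP_c82047_co)

Every `S_...` is a proposition to be proved in a separate file; complete proofs are in the doc
comments.
-/

set_option autoImplicit false

namespace Pool.Agent.W842.BV

open Finset

/-- VLB.  Linear algebra, second version.

Proof.  Put `ψ j = (1, a j)`, a vector of `ℚ ^ (D + 1)`, and let `F i` be the functional with the
coefficients `(α i, β i)`.  The `s` vectors `ψ j` are linearly independent: in a relation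
`∑ λ j ψ j = 0` apply `F i`, `i ≠ j₀`, to see `λ i = 0`; what remains is `λ j₀ ψ j₀ = 0`, and the first
coordinate gives `λ j₀ = 0`.  So `s ≤ D + 1`. -/
def S_VLB : Prop :=
  ∀ (D s : ℕ) (a : Fin s → Fin D → ℤ) (j₀ : Fin s) (α : Fin s → ℤ) (β : Fin s → Fin D → ℤ),
    (∀ i j, i ≠ j₀ → i ≠ j → α i + ∑ h, β i h * a j h = 0) →
    (∀ i, i ≠ j₀ → α i + ∑ h, β i h * a i h ≠ 0) → s ≤ D + 1

/-- VC12.  Sets with points in the first part (`S₁`) and in the second part (`S₂`), seen from the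
third part.

Proof.  If both sets have one element then `2 ≤ D + 1`.  Otherwise one of them, say the one called
`X`, has at least two elements.  Let `s = S₁.card + S₂.card` and enumerate the points of `S₁` and `S₂`
together by `Fin s` (or use VLB with an equivalence of `Fin s` with the disjoint sum of the two
finsets).  Let `y₀` be the vertex for `T₁ = S₁`, `T₂ = S₂`.  So `y₀ = dbl u_j + a_j` for `u_j ∈ S₁` and
`y₀ = dbl w_j - a_j` for `w_j ∈ S₂`, `a_j ∈ sph D r`.  If the other set has only one element let `j₀`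
be that element, otherwise let `j₀` be any element.  For `i ≠ j₀` both sets are still nonempty after
`i` is removed; let `y_i` be a vertex whose neighbours in `S₁ ∪ S₂` are all points but `i`.  Choose
some `k ≠ i`; `y_i = dbl u_k + a'` or `y_i = dbl w_k - a'` with `a' ∈ sph D r`, hence
`y_i = y₀ + γ_i` modulo `2 N` with the integer vector `γ_i = a' - a_k` or `γ_i = a_k - a'`, whose
coordinates are at most `2 R` in absolute value (coordinates of members of `sph D r` are at most `R`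
since their squares are at most `r ≤ R ^ 2`).  Now `y_i = dbl u_j + (γ_i + a_j)`, and `UY r u_j y_i`
iff `∑ (γ_i + a_j)^2 = r` (if: then `γ_i + a_j` is in `sph D r`; only if: `y_i = dbl u_j + b`,
`b ∈ sph D r`, then `γ_i + a_j - b` has coordinates of absolute value at most `4 R < 2 N` and is zero
modulo `2 N`), and as `∑ a_j^2 = r` this says `∑ γ_i^2 + ∑ γ_i (2 a_j) = 0`.  In the same way
`y_i = dbl w_j - (a_j - γ_i)`, and `WY r w_j y_i` iff `∑ γ_i^2 + ∑ γ_i (-2 a_j) = 0`.  Apply VLB with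
`α i = ∑ γ_i^2`, `β i = γ_i` and the vectors `2 a_j` (for `S₁`), `-2 a_j` (for `S₂`). -/
def S_VC12 : Prop :=
  S_VLB → ∀ (D N r R : ℕ) [NeZero N], 1 ≤ D → r ≤ R ^ 2 → 4 * R < N →
    ∀ (S₁ S₂ : Finset (Fin D → ZMod N)), S₁.Nonempty → S₂.Nonempty →
      (∀ T₁ ⊆ S₁, ∀ T₂ ⊆ S₂, T₁.Nonempty → T₂.Nonempty → ∃ y : Fin D → ZMod (2 * N),
        (∀ u ∈ S₁, (u ∈ T₁ ↔ UY r u y)) ∧ (∀ w ∈ S₂, (w ∈ T₂ ↔ WY r w y))) →
      S₁.card + S₂.card ≤ D + 1

/-- VC13.  Sets with points in the first part (`S₁`) and in the third part (`S₃`), seen from the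
second part.

Proof.  As for VC12.  `w₀` for the full set: `w₀ = u_j + a_j` modulo `N` for `u_j ∈ S₁`,
`y_j = dbl w₀ - a_j` for `y_j ∈ S₃`.  For `i ≠ j₀` let `w_i` be adjacent to all points but `i`; there is
some `u_k ∈ S₁`, `k ≠ i`, adjacent to `w_i`: `w_i = u_k + a' = w₀ + γ_i` with `γ_i = a' - a_k`,
coordinates at most `2 R`; so `dbl w_i = dbl w₀ + 2 γ_i` by DBL.  `w_i = u_j + (γ_i + a_j)`, and
`UW r u_j w_i` iff `∑ (γ_i + a_j)^2 = r` (coordinates at most `4 R < N`), i.e.
`∑ γ_i^2 + ∑ γ_i (2 a_j) = 0`.  `y_j = dbl w_i - (2 γ_i + a_j)`, and `WY r w_i y_j` iff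
`∑ (2 γ_i + a_j)^2 = r` (coordinates of the difference at most `6 R < 2 N`), i.e.
`4 (∑ γ_i^2 + ∑ γ_i a_j) = 0`.  Apply VLB with `α i = ∑ γ_i^2`, `β i = γ_i` and the vectors `2 a_j`
(for `S₁`), `a_j` (for `S₃`). -/
def S_VC13 : Prop :=
  S_DBL → S_VLB → ∀ (D N r R : ℕ) [NeZero N], 1 ≤ D → r ≤ R ^ 2 → 4 * R < N →
    ∀ (S₁ : Finset (Fin D → ZMod N)) (S₃ : Finset (Fin D → ZMod (2 * N))),
      S₁.Nonempty → S₃.Nonempty →
      (∀ T₁ ⊆ S₁, ∀ T₃ ⊆ S₃, T₁.Nonempty → T₃.Nonempty → ∃ w : Fin D → ZMod N,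
        (∀ u ∈ S₁, (u ∈ T₁ ↔ UW r u w)) ∧ (∀ y ∈ S₃, (y ∈ T₃ ↔ WY r w y))) →
      S₁.card + S₃.card ≤ D + 1

/-- VC23.  Sets with points in the second part (`S₂`) and in the third part (`S₃`), seen from the
first part.

Proof.  As for VC13.  `u₀` for the full set: `w_j = u₀ + a_j` modulo `N` for `w_j ∈ S₂`,
`y_j = dbl u₀ + a_j` for `y_j ∈ S₃`.  `u_i` is adjacent to some `w_k ∈ S₂`, `k ≠ i`:
`w_k = u_i + a'`, so `u_i = u₀ + γ_i` with `γ_i = a_k - a'`; `w_j = u_i + (a_j - γ_i)`,
`y_j = dbl u_i + (a_j - 2 γ_i)`; adjacent iff `∑ γ_i^2 + ∑ γ_i (-2 a_j) = 0`, respectively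
`∑ γ_i^2 + ∑ γ_i (- a_j) = 0`. -/
def S_VC23 : Prop :=
  S_DBL → S_VLB → ∀ (D N r R : ℕ) [NeZero N], 1 ≤ D → r ≤ R ^ 2 → 4 * R < N →
    ∀ (S₂ : Finset (Fin D → ZMod N)) (S₃ : Finset (Fin D → ZMod (2 * N))),
      S₂.Nonempty → S₃.Nonempty →
      (∀ T₂ ⊆ S₂, ∀ T₃ ⊆ S₃, T₂.Nonempty → T₃.Nonempty → ∃ u : Fin D → ZMod N,
        (∀ w ∈ S₂, (w ∈ T₂ ↔ UW r u w)) ∧ (∀ y ∈ S₃, (y ∈ T₃ ↔ UY r u y))) →
      S₂.card + S₃.card ≤ D + 1

/-- the sharper form of VCL: if all nonempty subsets of `S` are traces of neighbourhoods then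
`|S| ≤ D + 1` -/
def S_VCM : Prop :=
  ∀ (D N r R : ℕ) [NeZero N], 1 ≤ D → r ≤ R ^ 2 → 4 * R < N →
    ∀ S : Finset (Vt D N),
      (∀ T ⊆ S, T.Nonempty → ∃ v : Vt D N, nbr (HS D N r) v ∩ S = T) → S.card ≤ D + 1

/-- VCB.  VCM from the parts.

Proof.  We may assume that `S` is not empty.  Let `v₀` be a vertex with trace `S`.  By NBR points in
the part of `v₀` are not adjacent to `v₀`, so `S` lies in the two other parts.  If `S` lies in a single
part use VC1, VC2 or VC3 (the vertex `v` with a nonempty trace `T` is in one of the two other parts).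
If `S` has points in exactly two parts, then a vertex whose neighbours in `S` include points of both
these parts is in the third one: use VC12, VC13 or VC23. -/
def S_VCB : Prop :=
  S_DBL → S_NBR → S_VLA → S_VLB → S_VC1 → S_VC2 → S_VC3 → S_VC12 → S_VC13 → S_VC23 → S_VCM

/-- POL.  The triple system of the polarity graph.

Proof.  For a three-element set `s = {a, b, c}` of elements of the field let `e(s)` be the set of the
three points `(a, (a b + a c - b c) / 2)`, `(b, (a b + b c - a c) / 2)`, `(c, (a c + b c - a b) / 2)`;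
`H` is the set of all `e(s)`.  (With `σ = a + b + c`, `Q = a^2 + b^2 + c^2` the point with first
coordinate `x ∈ s` is `(x, x σ - x^2 - (σ^2 - Q) / 4)`.)  The first coordinates show that
`e(s)` has three elements and that `e` is injective, so `H.card = q.choose 3`.
(1) If `p ≠ p'` are two points of the same triple then `p.1 ≠ p'.1` and `p.2 + p'.2 = p.1 * p'.1`.
(2) Two different triples share at most one point: if `e(s)` and `e(s')` both contain the points with
first coordinates `a ≠ b`, `s = {a, b, c}`, `s' = {a, b, c'}` then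
`(a b + a c - b c) / 2 = (a b + a c' - b c') / 2`, so `(a - b) (c - c') = 0` and `c = c'`.
(3) No triangle: `x, y, z` different with `x, y ∈ f`, `y, z ∈ g`, `x, z ∈ e`.  By (1) their first
coordinates are different, and the three equations `x.2 + y.2 = x.1 y.1` and so on give
`{x, y, z} = e({x.1, y.1, z.1}) ∈ H`; this triple shares two points with `e` and with `f`, so it is
equal to both by (2), but `e ≠ f`.
(4) Common neighbours `v` of `x ≠ y`: by (1) `x.2 + v.2 = x.1 v.1`, `y.2 + v.2 = y.1 v.1`, so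
`x.2 - y.2 = (x.1 - y.1) v.1`; if `x.1 = y.1` then `x = y`; so `v.1` and then `v.2` are determined. -/
def S_POL : Prop :=
  ∀ (q : ℕ) [Fact q.Prime], q ≠ 2 → ∃ H : Finset (Finset (ZMod q × ZMod q)),
    H.card = q.choose 3 ∧ (∀ e ∈ H, e.card = 3) ∧
    (∀ e ∈ H, ∀ f ∈ H, e ≠ f → (e ∩ f).card ≤ 1) ∧
    (∀ e ∈ H, ∀ f ∈ H, ∀ g ∈ H, e ≠ f → f ≠ g → e ≠ g → ∀ x y z : ZMod q × ZMod q, x ∈ e → x ∈ f →
      y ∈ f → y ∈ g → z ∈ e → z ∈ g → x ≠ y → y ≠ z → x ≠ z → False) ∧
    (∀ x y : ZMod q × ZMod q, x ≠ y →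
      (univ.filter (fun v => x ∈ nbr H v ∧ y ∈ nbr H v)).card ≤ 1)

/-- PON.  The example for VC-dimension two on `n` points.

Proof.  Let `n` be large, `m` the integral part of the square root of `n` divided by two, and `q` a
prime with `m < q ≤ 2 m` (`Nat.exists_prime_lt_and_le_two_mul`), `q ^ 2 ≤ n`.  Take the system of POL.
By SIX any six points span at most two triples.  If all nonempty subsets of `S` are traces of
neighbourhoods then `S.card ≤ 2`: otherwise take two different points `x, y` of `S`, a vertex `v` with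
trace `S` and a vertex `v'` with trace `{x, y}`; they are different common neighbours of `x` and `y`.
Transfer to `Fin n` with TRANS.  The number of triples is `q (q - 1) (q - 2) / 6 ≥ c n ^ (3 / 2)`, as
`q > m ≥ sqrt n / 2 - 1`. -/
def S_PON : Prop :=
  S_POL → S_SIX → S_TRANS → ∃ c : ℝ, 0 < c ∧ ∃ n₀ : ℕ, ∀ n : ℕ, n₀ ≤ n →
    ∃ H : Finset (Finset (Fin n)), Sparse 3 H ∧ (univ.image (nbr H)).vcDim ≤ 2 ∧
      c * (n : ℝ) ^ (3 / 2 : ℝ) ≤ H.card

/-- RK.  Sets defined by rounding the rows of a matrix of small rank.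

Proof.  Let the family shatter `S`; suppose `S.card ≥ M.rank + 2`.  The vectors
`(M b w - 1 / 2)_{w ∈ S}` of `ℝ ^ S`, `b : Fin n`, lie in the span of the rows of `M` restricted to `S`
and of the constant vector, a space of dimension at most `M.rank + 1 < S.card`.  So there is `lam ≠ 0`
in `ℝ ^ S` with `∑_{w ∈ S} lam w (M b w - 1 / 2) = 0` for all `b`; replacing `lam` by `- lam` we may
assume that some `lam w` is negative.  Let `b` be a row with
`{w ∈ S : 1 / 2 ≤ M b w} = {w ∈ S : 0 ≤ lam w}`.  All the terms of the sum are nonnegative and the one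
of a `w` with `lam w < 0` is positive, a contradiction. -/
def S_RK : Prop :=
  ∀ (n : ℕ) (M : Matrix (Fin n) (Fin n) ℝ),
    (univ.image (fun b : Fin n => univ.filter (fun w : Fin n => (1 / 2 : ℝ) ≤ M b w))).vcDim ≤
      M.rank + 1

end Pool.Agent.W842.BV
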