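import Pool.Agent.W842.BV.Qual
import Pool.Agent.W842.BV.Stms2

/-!
# The robust form: the shadow may be changed in `δ n ^ 2` places
-/

set_option autoImplicit false

namespace Pool.Agent.W842.BV

open Finset

theorem card_symmDiff_triangle {α : Type} [DecidableEq α] (A B C : Finset α) :
    (symmDiff A C).card ≤ (symmDiff A B).card + (symmDiff B C).card := by
  have h : symmDiff A C ⊆ symmDiff A B ∪ symmDiff B C := by
    have := symmDiff_triangle A B C
    simpa using this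
  exact (Finset.card_le_card h).trans (Finset.card_union_le _ _)

theorem robust (hF : S_FOREST) (hE : S_EXT) (hC : S_COD) (hD : S_DIFF) (hH : S_HAUS)
    (hL : S_LINK) (s : ℕ) (hs : 1 ≤ s) (ε : ℝ) (hε : 0 < ε) :
    ∃ δ : ℝ, 0 < δ ∧ ∃ c : ℝ, 0 < c ∧ ∃ N : ℕ, ∀ n : ℕ, N ≤ n →
      ∀ H : Finset (Finset (Fin n)), Sparse s H → ∀ M : Fin n → Finset (Fin n),
        ((univ.image M).vcDim : ℝ) ≤ c * Real.log n →
        ((∑ b, (symmDiff (nbr H b) (M b)).card : ℕ) : ℝ) ≤ δ * (n : ℝ) ^ 2 →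
        (H.card : ℝ) ≤ ε * (n : ℝ) ^ 2 := by
  have hs0 : (0 : ℝ) < s := by exact_mod_cast hs
  set ε₁ : ℝ := 3 * ε / s with hε₁
  have hε₁0 : 0 < ε₁ := by positivity
  set ρ : ℝ := ε₁ / (8 * s) with hρ
  have hρ0 : 0 < ρ := by positivity
  set L : ℝ := max 1 (Real.log (22 / ρ)) with hLdef
  have hL1 : 1 ≤ L := le_max_left _ _
  set n₁ : ℕ := ⌈(2 * ((s : ℝ) ^ 2 + s)) / ε₁⌉₊ + ⌈1 / ρ⌉₊ + ⌈4 / ε₁⌉₊ + ⌈4 / ε₁ ^ 2⌉₊ + (s + 3) + 1
    with hn₁
  refine ⟨ρ * ε₁ / 2, by positivity, 1 / (2 * L), by positivity, n₁, ?_⟩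
  intro n hn H hS M hv hM
  by_contra hcon
  push Not at hcon
  -- consequences of the size of n
  have hnR : ((n₁ : ℕ) : ℝ) ≤ n := by exact_mod_cast hn
  have hce1 := Nat.le_ceil ((2 * ((s : ℝ) ^ 2 + s)) / ε₁)
  have hce2 := Nat.le_ceil (1 / ρ)
  have hce3 := Nat.le_ceil (4 / ε₁)
  have hce4 := Nat.le_ceil (4 / ε₁ ^ 2)
  have hn₁R : ((n₁ : ℕ) : ℝ) = (⌈(2 * ((s : ℝ) ^ 2 + s)) / ε₁⌉₊ : ℝ) + ⌈1 / ρ⌉₊ + ⌈4 / ε₁⌉₊ +
      ⌈4 / ε₁ ^ 2⌉₊ + (s + 3) + 1 := by
    rw [hn₁]; push_cast; ring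
  have c1 : (0 : ℝ) ≤ (⌈(2 * ((s : ℝ) ^ 2 + s)) / ε₁⌉₊ : ℝ) := Nat.cast_nonneg _
  have c2 : (0 : ℝ) ≤ (⌈1 / ρ⌉₊ : ℝ) := Nat.cast_nonneg _
  have c3 : (0 : ℝ) ≤ (⌈4 / ε₁⌉₊ : ℝ) := Nat.cast_nonneg _
  have c4 : (0 : ℝ) ≤ (⌈4 / ε₁ ^ 2⌉₊ : ℝ) := Nat.cast_nonneg _
  have hn3 : s + 3 ≤ n := by
    have : (s : ℝ) + 3 ≤ n := by linarith
    exact_mod_cast this
  have hn0 : (0 : ℝ) < n := by linarith
  have g1 : 2 * ((s : ℝ) ^ 2 + s) ≤ ε₁ * n := by
    have : (2 * ((s : ℝ) ^ 2 + s)) / ε₁ ≤ n := by linarith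
    rw [div_le_iff₀ hε₁0] at this
    linarith
  have g2 : 1 ≤ ρ * n := by
    have : 1 / ρ ≤ n := by linarith
    rw [div_le_iff₀ hρ0] at this
    linarith
  have g3 : 4 ≤ ε₁ * n := by
    have : 4 / ε₁ ≤ n := by linarith
    rw [div_le_iff₀ hε₁0] at this
    linarith
  have g4 : 4 / ε₁ ^ 2 < n := by linarith
  -- many vertices of large degree
  set B : Finset (Fin n) := univ.filter (fun b => ε₁ * n ≤ ((nbr H b).card : ℝ)) with hB
  have hsum : 2 * ε₁ * (n : ℝ) ^ 2 ≤ ((∑ b, (nbr H b).card : ℕ) : ℝ) := by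
    have h1 := hL n s H hS.1 (hC hE n s H hs hn3 hS)
    have h2 : (6 : ℝ) * H.card ≤ s * ((∑ b, (nbr H b).card : ℕ) : ℝ) := by exact_mod_cast h1
    have h3 : s * (2 * ε₁ * (n : ℝ) ^ 2) = 6 * (ε * (n : ℝ) ^ 2) := by
      rw [hε₁]; field_simp; ring
    have h4 : s * (2 * ε₁ * (n : ℝ) ^ 2) ≤ s * ((∑ b, (nbr H b).card : ℕ) : ℝ) := by linarith
    exact le_of_mul_le_mul_left h4 hs0
  have hBcard : ε₁ * n ≤ B.card := by
    have h1 : ((∑ b, (nbr H b).card : ℕ) : ℝ) ≤ B.card * n + n * (ε₁ * n) := by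
      push_cast
      rw [← Finset.sum_filter_add_sum_filter_not univ (fun b => ε₁ * n ≤ ((nbr H b).card : ℝ))]
      apply add_le_add
      · calc ∑ b ∈ B, ((nbr H b).card : ℝ) ≤ ∑ b ∈ B, (n : ℝ) := by
              apply Finset.sum_le_sum
              intro b _
              exact_mod_cast nbr_card_le H b
          _ = B.card * n := by rw [Finset.sum_const, nsmul_eq_mul]
      · calc ∑ b ∈ univ.filter (fun b => ¬ (ε₁ * n ≤ ((nbr H b).card : ℝ))), ((nbr H b).card : ℝ)
            ≤ ∑ b ∈ univ.filter (fun b => ¬ (ε₁ * n ≤ ((nbr H b).card : ℝ))), (ε₁ * n) := by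
              apply Finset.sum_le_sum
              intro b hb
              rw [Finset.mem_filter] at hb
              exact le_of_lt (not_le.1 hb.2)
          _ = (univ.filter (fun b => ¬ (ε₁ * n ≤ ((nbr H b).card : ℝ)))).card * (ε₁ * n) := by
              rw [Finset.sum_const, nsmul_eq_mul]
          _ ≤ n * (ε₁ * n) := by
              apply mul_le_mul_of_nonneg_right _ (by positivity)
              have := Finset.card_le_univ (univ.filter (fun b : Fin n =>
                ¬ (ε₁ * n ≤ ((nbr H b).card : ℝ))))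
              rw [Fintype.card_fin] at this
              exact_mod_cast this
    have h2 : (ε₁ * n) * n ≤ (B.card : ℝ) * n := by nlinarith
    exact le_of_mul_le_mul_right h2 hn0
  -- separation
  have hsep : ∀ b ∈ B, ∀ b' ∈ B, b ≠ b' →
      4 * ρ * n ≤ ((symmDiff (nbr H b) (nbr H b')).card : ℝ) := by
    intro b hb b' _ hne
    have h1 := hD hF hE hC n s H hs hn3 hS b b' hne
    have h2 : ((nbr H b).card : ℝ) ≤
        s * ((symmDiff (nbr H b) (nbr H b')).card : ℝ) + (s : ℝ) ^ 2 + s := by exact_mod_cast h1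
    have h3 : ε₁ * n ≤ ((nbr H b).card : ℝ) := (Finset.mem_filter.1 hb).2
    have h4 : s * (4 * ρ * n) = ε₁ * n / 2 := by rw [hρ]; field_simp; ring
    have h5 : s * (4 * ρ * n) ≤ s * ((symmDiff (nbr H b) (nbr H b')).card : ℝ) := by linarith
    exact le_of_mul_le_mul_left h5 hs0
  -- the good vertices
  set B' : Finset (Fin n) := B.filter (fun b => ((symmDiff (nbr H b) (M b)).card : ℝ) ≤ ρ * n)
    with hB'
  have hbad : ((B.filter (fun b => ¬ ((symmDiff (nbr H b) (M b)).card : ℝ) ≤ ρ * n)).card : ℝ) ≤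
      ε₁ * n / 2 := by
    have h1 : ((B.filter (fun b => ¬ ((symmDiff (nbr H b) (M b)).card : ℝ) ≤ ρ * n)).card : ℝ) *
        (ρ * n) ≤ ρ * ε₁ / 2 * (n : ℝ) ^ 2 := by
      refine le_trans ?_ hM
      push_cast
      calc ((B.filter (fun b => ¬ ((symmDiff (nbr H b) (M b)).card : ℝ) ≤ ρ * n)).card : ℝ) *
            (ρ * n)
          = ∑ b ∈ B.filter (fun b => ¬ ((symmDiff (nbr H b) (M b)).card : ℝ) ≤ ρ * n), (ρ * n) := by
            rw [Finset.sum_const, nsmul_eq_mul]
        _ ≤ ∑ b ∈ B.filter (fun b => ¬ ((symmDiff (nbr H b) (M b)).card : ℝ) ≤ ρ * n),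
            ((symmDiff (nbr H b) (M b)).card : ℝ) := by
            apply Finset.sum_le_sum
            intro b hb
            rw [Finset.mem_filter] at hb
            exact le_of_lt (not_le.1 hb.2)
        _ ≤ ∑ b, ((symmDiff (nbr H b) (M b)).card : ℝ) := by
            apply Finset.sum_le_sum_of_subset_of_nonneg (Finset.subset_univ _)
            intro b _ _
            exact Nat.cast_nonneg _
    have h2 : (ε₁ * n / 2) * (ρ * n) = ρ * ε₁ / 2 * (n : ℝ) ^ 2 := by ring
    rw [← h2] at h1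
    exact le_of_mul_le_mul_right h1 (by positivity)
  have hB'card : ε₁ * n / 2 ≤ B'.card := by
    have h1 := Finset.card_filter_add_card_filter_not (s := B)
      (fun b => ((symmDiff (nbr H b) (M b)).card : ℝ) ≤ ρ * n)
    have h2 : (B'.card : ℝ) +
        ((B.filter (fun b => ¬ ((symmDiff (nbr H b) (M b)).card : ℝ) ≤ ρ * n)).card : ℝ) =
        B.card := by exact_mod_cast h1
    linarith
  have hsep' : ∀ b ∈ B', ∀ b' ∈ B', b ≠ b' →
      2 * ρ * n ≤ ((symmDiff (M b) (M b')).card : ℝ) := by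
    intro b hb b' hb' hne
    rw [hB', Finset.mem_filter] at hb hb'
    have h1 := hsep b hb.1 b' hb'.1 hne
    have h2 := card_symmDiff_triangle (nbr H b) (M b) (nbr H b')
    have h3 := card_symmDiff_triangle (M b) (M b') (nbr H b')
    rw [symmDiff_comm (M b') (nbr H b')] at h3
    have h4 : ((symmDiff (nbr H b) (nbr H b')).card : ℝ) ≤
        ((symmDiff (nbr H b) (M b)).card : ℝ) + (((symmDiff (M b) (M b')).card : ℝ) +
          ((symmDiff (nbr H b') (M b')).card : ℝ)) := by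
      have : (symmDiff (nbr H b) (nbr H b')).card ≤ (symmDiff (nbr H b) (M b)).card +
          ((symmDiff (M b) (M b')).card + (symmDiff (nbr H b') (M b')).card) := by omega
      exact_mod_cast this
    linarith [hb.2, hb'.2]
  -- packing
  set r : ℕ := ⌈ρ * n⌉₊ with hr
  have hr1 : ρ * n ≤ r := Nat.le_ceil _
  have hr2 : (r : ℝ) ≤ 2 * ρ * n := by
    have := Nat.ceil_lt_add_one (show (0 : ℝ) ≤ ρ * n by positivity)
    rw [← hr] at this
    linarith
  have hr0 : 1 ≤ r := by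
    have : (1 : ℝ) ≤ r := by linarith
    exact_mod_cast this
  have hinj : Set.InjOn M B' := by
    intro b hb b' hb' h
    by_contra hne
    have h5 := hsep' b hb b' hb' hne
    rw [h, symmDiff_self] at h5
    simp at h5
    linarith
  have hcard : (B'.image M).card = B'.card := Finset.card_image_of_injOn hinj
  have hrn : r ≤ n := by
    have h1 : 1 < B'.card := by
      have : (1 : ℝ) < B'.card := by linarith
      exact_mod_cast this
    obtain ⟨b, hb, b', hb', hne⟩ := Finset.one_lt_card.1 h1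
    have h2 := hsep' b hb b' hb' hne
    have h3 : (symmDiff (M b) (M b')).card ≤ n := by
      have := Finset.card_le_univ (symmDiff (M b) (M b'))
      simpa using this
    have h4 : (r : ℝ) ≤ n := by
      have : ((symmDiff (M b) (M b')).card : ℝ) ≤ n := by exact_mod_cast h3
      linarith
    exact_mod_cast h4
  have hpack : (B'.card : ℝ) ≤ (22 * n / r) ^ (B'.image M).vcDim := by
    rw [← hcard]
    have h6 := hH (Fin n) (B'.image M) r hr0 ?_ (by simpa using hrn)
    · simpa using h6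
    · intro A hA A' hA' hne
      obtain ⟨b, hb, rfl⟩ := Finset.mem_image.1 hA
      obtain ⟨b', hb', rfl⟩ := Finset.mem_image.1 hA'
      have h7 := hsep' b hb b' hb' (fun h => hne (by rw [h]))
      have : (r : ℝ) ≤ ((symmDiff (M b) (M b')).card : ℝ) := hr2.trans h7
      exact_mod_cast this
  have hrpos : (0 : ℝ) < r := by exact_mod_cast hr0
  have hbase : 22 * (n : ℝ) / r ≤ 22 / ρ := by
    rw [div_le_div_iff₀ hrpos hρ0]
    linarith
  have hone : (1 : ℝ) ≤ 22 * n / r := by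
    rw [le_div_iff₀ hrpos]
    have : (r : ℝ) ≤ n := by exact_mod_cast hrn
    linarith
  have hlogn : 0 < Real.log n := by
    apply Real.log_pos
    linarith
  have hfin : (B'.card : ℝ) ≤ Real.exp (Real.log n / 2) := by
    calc (B'.card : ℝ) ≤ (22 * n / r) ^ (B'.image M).vcDim := hpack
      _ ≤ (22 / ρ) ^ (B'.image M).vcDim := by gcongr
      _ ≤ (22 / ρ) ^ (univ.image M).vcDim := by
          apply pow_le_pow_right₀ (hone.trans hbase)
          exact Finset.vcDim_mono (Finset.image_subset_image (Finset.subset_univ _))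
      _ = Real.exp ((univ.image M).vcDim * Real.log (22 / ρ)) := by
          rw [mul_comm, Real.exp_mul, Real.exp_log (by positivity), Real.rpow_natCast]
      _ ≤ Real.exp (Real.log n / 2) := by
          apply Real.exp_le_exp.2
          calc ((univ.image M).vcDim : ℝ) * Real.log (22 / ρ)
              ≤ ((univ.image M).vcDim : ℝ) * L := by
                apply mul_le_mul_of_nonneg_left (le_max_right _ _) (Nat.cast_nonneg _)
            _ ≤ (1 / (2 * L) * Real.log n) * L := by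
                apply mul_le_mul_of_nonneg_right hv (by linarith)
            _ = Real.log n / 2 := by field_simp
  have hsq : Real.exp (Real.log n / 2) * Real.exp (Real.log n / 2) = n := by
    rw [← Real.exp_add, add_halves, Real.exp_log hn0]
  have h8 : ε₁ * n / 2 ≤ Real.exp (Real.log n / 2) := hB'card.trans hfin
  have h9 : (ε₁ * n / 2) * (ε₁ * n / 2) ≤ n := by
    calc (ε₁ * n / 2) * (ε₁ * n / 2) ≤ Real.exp (Real.log n / 2) * Real.exp (Real.log n / 2) := by
          gcongr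
      _ = n := hsq
  have h10 : 4 < n * ε₁ ^ 2 := by
    rw [div_lt_iff₀ (by positivity)] at g4
    exact g4
  nlinarith [mul_pos hn0 hn0]

end Pool.Agent.W842.BV
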