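import Mathlib

/-!
# Triple systems of bounded VC-dimension: definitions and the statements of the parts

Project BV of helper842 (MP_c82047_co, Brown-Erdős-Sós conjecture).  Every `S_...` below is a
proposition to be proved in a separate file; complete proofs are in the doc comments.
-/

set_option autoImplicit false

namespace Pool.Agent.W842.BV

open Finset

/-- The neighbours of the vertex `v` in the family `H` of sets: the vertices `w ≠ v` that lie in a
member of `H` together with `v`. -/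
def nbr {V : Type} [Fintype V] [DecidableEq V] (H : Finset (Finset V)) (v : V) : Finset V :=
  univ.filter (fun w => w ≠ v ∧ ∃ e ∈ H, v ∈ e ∧ w ∈ e)

/-- FOREST.  A multigraph with edge set `T` (ends of the edge `e`: the two-element set `l e`) in
which any `s` edges span at least `s + 2` vertices has at most `s (q + 1)` non isolated vertices,
where `q` is the number of vertices of degree one.

Proof.  Strong induction on `T.card`, for all `s` at once.  `T = ∅` is trivial.  Call `B ⊆ T` built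
if it is obtained from a single edge by adding, one at a time, edges that meet the vertex set
`B.biUnion l` of the edges present so far (inductive predicate).  A built set satisfies
`(B.biUnion l).card ≤ B.card + 1`.  No built `B ⊆ T` has `s` or more elements (every built set with
more than `s` elements was built through one with exactly `s` elements, which would contradict the
hypothesis; alternatively: take `B` built with `B.card ≤ s` of maximal size; `B.card = s` is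
excluded by the hypothesis, so `B.card < s`).  Let `B` be built, `B.card < s`, of maximal
cardinality.  Then no edge of `T \ B` meets `B.biUnion l`.  Put `T' = T \ B`; the vertex sets of
`T'` and `B` are disjoint, and a vertex of `B` (of `T'`) has the same degree in `T` as in `B` (in
`T'`).
(a) If `(B.biUnion l).card ≤ B.card =: β` then any `s - β` edges of `T'` together with `B` are `s`
edges, so they span at least `s + 2 - β` vertices: `T'` satisfies the hypothesis for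
`s' = s - β ≥ 1`, and by induction the number of vertices of `T'` is at most `s' (q' + 1)`; the total
is at most `β + (s - β) (q' + 1) ≤ s (q + 1)`, as `q' ≤ q`.
(b) If `(B.biUnion l).card = B.card + 1 ≤ s`: some vertex of `B` has degree one, since otherwise the
sum of the degrees `2 B.card` would be at least `2 (B.card + 1)`.  So `q ≥ q' + 1`, and by induction
for `T'` and the same `s` the number of vertices is at most `s + s (q' + 1) ≤ s (q + 1)`. -/
def S_FOREST : Prop :=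
  ∀ (V ι : Type) [DecidableEq V] [DecidableEq ι] (l : ι → Finset V) (s : ℕ) (T : Finset ι),
    1 ≤ s → (∀ e ∈ T, (l e).card = 2) →
    (∀ T' ⊆ T, T'.card = s → s + 2 ≤ (T'.biUnion l).card) →
    (T.biUnion l).card ≤
      s * (((T.biUnion l).filter (fun x => (T.filter (fun e => x ∈ l e)).card = 1)).card + 1)

/-- UD (Haussler, Littlestone, Warmuth).  The number of pairs `(A, B)` of members of a family `𝒜` of
sets with `B = A ∪ {x}`, `x ∉ A`, is at most `vcDim 𝒜 * |𝒜|`.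

Proof.  Induction on the ground set.  It suffices to prove, by induction on the finset `X`, for all
`d` and all `𝒜` with `∀ A ∈ 𝒜, A ⊆ X` and `𝒜.vcDim ≤ d`, that the number `E(𝒜)` of such pairs is
at most `d * 𝒜.card`.  If `X = ∅` there are no pairs.  For `X = insert x X'` let
`𝒜₁ = {A.erase x : A ∈ 𝒜}` and `𝒜₂ = {A ∈ 𝒜 : x ∉ A, insert x A ∈ 𝒜}`.  Then
`|𝒜| = |𝒜₁| + |𝒜₂|`, `vcDim 𝒜₁ ≤ d` (a set shattered by `𝒜₁` does not contain `x` and is
shattered by `𝒜`), and `𝒜₂` is empty or `vcDim 𝒜₂ ≤ d - 1` with `d ≥ 1` (if `𝒜₂` shatters `S`,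
then `x ∉ S` and `𝒜` shatters `insert x S`).  The pairs of `𝒜` that differ in `x` are `|𝒜₂|` many.
A pair `(A, insert y A)` of `𝒜` with `y ≠ x` is mapped to the pair `(A.erase x, (insert y A).erase x)`
of `𝒜₁`; every pair of `𝒜₁` has at most two preimages, and if it has two, then both of its members
are in `𝒜₂`; so `E(𝒜) ≤ |𝒜₂| + E(𝒜₁) + E(𝒜₂) ≤ |𝒜₂| + d |𝒜₁| + (d - 1) |𝒜₂| = d |𝒜|`. -/
def S_UD : Prop :=
  ∀ (α : Type) [DecidableEq α] (𝒜 : Finset (Finset α)),
    ((𝒜 ×ˢ 𝒜).filter (fun p => p.1 ⊆ p.2 ∧ p.2.card = p.1.card + 1)).card ≤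
      𝒜.vcDim * 𝒜.card

/-- BIN.  `∑_{i ≤ d} C(m, i) ≤ (e m / d) ^ d` for `1 ≤ d ≤ m`.

Proof.  `∑_{i ≤ d} C(m, i) (d / m) ^ d ≤ ∑_{i ≤ d} C(m, i) (d / m) ^ i ≤ (1 + d / m) ^ m ≤ e ^ d`. -/
def S_BIN : Prop :=
  ∀ (m d : ℕ), 1 ≤ d → d ≤ m →
    ((∑ i ∈ Finset.Iic d, m.choose i : ℕ) : ℝ) ≤ (Real.exp 1 * m / d) ^ d

/-! ### Haussler's packing lemma -/

/-- the trace of `A` on the sample `x` -/
def tr {α : Type} [DecidableEq α] {t : ℕ} (x : Fin t → α) (A : Finset α) : Finset (Fin t) :=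
  univ.filter (fun i => x i ∈ A)

/-- the number of members of `𝒜` with trace `Q` -/
def wt {α : Type} [DecidableEq α] {t : ℕ} (𝒜 : Finset (Finset α)) (x : Fin t → α)
    (Q : Finset (Fin t)) : ℕ :=
  (𝒜.filter (fun A => tr x A = Q)).card

/-- the weight of the edges of direction `i` of the one inclusion graph of the traces -/
def Wi {α : Type} [DecidableEq α] {t : ℕ} (𝒜 : Finset (Finset α)) (x : Fin t → α) (i : Fin t) :
    ℕ :=
  ∑ Q ∈ univ.filter (fun Q : Finset (Fin t) => i ∉ Q), min (wt 𝒜 x Q) (wt 𝒜 x (insert i Q))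

/-- TRV.  A family of traces has at most the VC-dimension of the family itself.

Proof.  Let `ℬ` shatter `S`.  If `i ≠ i'` are in `S` then some `Q ∈ ℬ` has `Q ∩ S = {i}`, and
`Q = tr x A` shows `x i ∈ A`, `x i' ∉ A`, so `x i ≠ x i'`: `x` is injective on `S`.  `𝒜` shatters
`S.image x`: for `T ⊆ S.image x` put `T' = {i ∈ S : x i ∈ T}`, choose `Q ∈ ℬ` with `S ∩ Q = T'` and
`A ∈ 𝒜` with `tr x A = Q`; then `S.image x ∩ A = T`.  So `S.card = (S.image x).card ≤ 𝒜.vcDim`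
(`Finset.Shatters.card_le_vcDim`). -/
def S_TRV : Prop :=
  ∀ (α : Type) [DecidableEq α] (𝒜 : Finset (Finset α)) (t : ℕ) (x : Fin t → α)
    (ℬ : Finset (Finset (Fin t))), (∀ Q ∈ ℬ, ∃ A ∈ 𝒜, tr x A = Q) → ℬ.vcDim ≤ 𝒜.vcDim

/-- H1.  The total weight of the one inclusion graph is at most `vcDim * card`.

Proof.  Let `N = 𝒜.card` and for `1 ≤ j ≤ N` let `T_j = {Q : j ≤ wt 𝒜 x Q}`.  Every `Q ∈ T_j` is the trace
of a member of `𝒜`, so `T_j.vcDim ≤ 𝒜.vcDim` by TRV.  As `min a b = ∑_{j = 1}^N [j ≤ a ∧ j ≤ b]`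
for `a, b ≤ N`, the sum `∑_i Wi 𝒜 x i` is the sum over `j` of the number of `(Q, i)` with `i ∉ Q`,
`Q ∈ T_j`, `insert i Q ∈ T_j`, i.e. of the number of pairs `(P, P')` of members of `T_j` with
`P ⊆ P'`, `P'.card = P.card + 1`, which is at most `T_j.vcDim * T_j.card ≤ 𝒜.vcDim * T_j.card` by
UD.  Finally `∑_j T_j.card = ∑_Q wt 𝒜 x Q = N`. -/
def S_H1 : Prop :=
  S_TRV → S_UD → ∀ (α : Type) [DecidableEq α] (𝒜 : Finset (Finset α)) (t : ℕ) (x : Fin t → α),
    ∑ i, Wi 𝒜 x i ≤ 𝒜.vcDim * 𝒜.card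

/-- H2.  The average weight in a direction `i` is large if the members of `𝒜` are far from each
other.

Proof.  Write `x = i.insertNth a y` (`Fin.insertNthEquiv`), `a : α`, `y : Fin T → α`.  It suffices to
show for each `y` that `(r / 2) (N - Φ) ≤ ∑_a Wi 𝒜 (i.insertNth a y) i`, where
`Φ = ∑_{j ≤ d} C(T, j)`, `d = 𝒜.vcDim`, `N = 𝒜.card`.  For `P : Finset (Fin T)` let
`C_P = {A ∈ 𝒜 : tr y A = P}`, `b = C_P.card`.  For `Q ∌ i`, i.e. `Q = P.image i.succAbove`, the number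
`wt 𝒜 x Q` is `b₂ = #{A ∈ C_P : a ∉ A}`, and `wt 𝒜 x (insert i Q)` is
`b₁ = #{A ∈ C_P : a ∈ A}`; `b₁ + b₂ = b`, so `b₁ b₂ = min * max ≤ b min (b₁, b₂)`.  And
`∑_a b₁ b₂ = ∑_{(A, B) ∈ C_P²} |A \ B| = (1 / 2) ∑_{(A, B)} |A Δ B| ≥ (1 / 2) b (b - 1) r`.  So
`∑_a min (b₁, b₂) ≥ (r / 2) (b - 1)` if `b ≥ 1` (and it is `≥ 0` if `b = 0`).  Sum over `P`: at least
`(r / 2) (N - #{P : C_P ≠ ∅})`; the family `𝒜.image (tr y)` of these `P` has VC-dimension at most `d`
(TRV), so at most `Φ` members (`Finset.card_le_card_shatterer`,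
`Finset.card_shatterer_le_sum_vcDim`). -/
def S_H2 : Prop :=
  S_TRV → ∀ (α : Type) [Fintype α] [DecidableEq α] (𝒜 : Finset (Finset α)) (r T : ℕ)
    (i : Fin (T + 1)),
    (∀ A ∈ 𝒜, ∀ B ∈ 𝒜, A ≠ B → r ≤ (symmDiff A B).card) →
    (r : ℝ) * ((𝒜.card : ℝ) - ((∑ j ∈ Finset.Iic 𝒜.vcDim, T.choose j : ℕ) : ℝ)) *
        (Fintype.card α : ℝ) ^ T ≤
      2 * ∑ x : Fin (T + 1) → α, (Wi 𝒜 x i : ℝ)

/-- HAUS (Haussler's packing lemma).  If any two different members of `𝒜` differ in at least `r`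
points then `|𝒜| ≤ (22 n / r) ^ vcDim 𝒜`, `n` = number of points.  It is stated with the hypotheses
that are proved in the other parts.

Proof.  Let `d = 𝒜.vcDim`, `N = 𝒜.card`, `n = Fintype.card α`, so `1 ≤ r ≤ n`.  If `N ≤ 1` the claim
is clear (`22 n / r ≥ 1`).  If `d = 0` then `N ≤ 1` (`Finset.card_le_card_shatterer`,
`Finset.card_shatterer_le_sum_vcDim`).  Let `d ≥ 1`.  Let `T` be the integral part of `4 d n / r`, so that
`T ≥ 4 d ≥ d` and `T + 1 ≥ 4 d n / r`.  Sum H2 over `i : Fin (T + 1)` and use H1: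
`(T + 1) r (N - Φ) n ^ T ≤ 2 ∑_x ∑_i Wi 𝒜 x i ≤ 2 n ^ (T + 1) d N`, so `(T + 1) r (N - Φ) ≤ 2 n d N`.
If `N ≤ Φ` we have `N ≤ 2 Φ`; otherwise `4 d n (N - Φ) ≤ (T + 1) r (N - Φ) ≤ 2 n d N`, again `N ≤ 2 Φ`.
By BIN `Φ ≤ (e T / d) ^ d ≤ (4 e n / r) ^ d`, so `N ≤ 2 (4 e n / r) ^ d ≤ (8 e n / r) ^ d ≤ (22 n / r) ^ d`
(`e < 2.7182818286`). -/
def S_HAUS : Prop :=
  ∀ (α : Type) [Fintype α] [DecidableEq α] (𝒜 : Finset (Finset α)) (r : ℕ), 1 ≤ r →
    (∀ A ∈ 𝒜, ∀ B ∈ 𝒜, A ≠ B → r ≤ (symmDiff A B).card) → r ≤ Fintype.card α →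
    (𝒜.card : ℝ) ≤ (22 * Fintype.card α / r) ^ 𝒜.vcDim

/-- H3: Haussler's lemma from the parts; the proof is in the comment of `S_HAUS`. -/
def S_H3 : Prop := S_TRV → S_UD → S_BIN → S_H1 → S_H2 → S_HAUS

/-! ### Sparse triple systems -/

/-- every `s + 3` vertices span fewer than `s` members of `H` -/
def Sparse {n : ℕ} (s : ℕ) (H : Finset (Finset (Fin n))) : Prop :=
  (∀ e ∈ H, e.card = 3) ∧
    ∀ S : Finset (Fin n), S.card = s + 3 → (H.filter (fun e => e ⊆ S)).card < s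

/-- EXT.  `s` members of `H` have at least `s + 4` points.

Proof.  If the union of the members of `T` has at most `s + 3 ≤ n` points it is contained in a set `S`
of exactly `s + 3` points (`Finset.exists_superset_card_eq`), and `T ⊆ H.filter (· ⊆ S)`. -/
def S_EXT : Prop :=
  ∀ (n s : ℕ) (H : Finset (Finset (Fin n))), s + 3 ≤ n → Sparse s H →
    ∀ T ⊆ H, s ≤ T.card → s + 4 ≤ (T.biUnion id).card

/-- COD.  Codegrees are less than `s`.

Proof.  Otherwise choose `s` members of `H` that contain `b` and `w`; their union has at most `s + 2`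
points, against EXT. -/
def S_COD : Prop :=
  S_EXT → ∀ (n s : ℕ) (H : Finset (Finset (Fin n))), 1 ≤ s → s + 3 ≤ n → Sparse s H →
    ∀ b w : Fin n, b ≠ w → (H.filter (fun e => b ∈ e ∧ w ∈ e)).card < s

/-- LINK.  `6 |H| ≤ s ∑_b |N(b)|`.

Proof.  Count the `(b, w, e)` with `e ∈ H`, `b, w ∈ e`, `b ≠ w`: `6 |H| = ∑_b ∑_{w ∈ N(b)} codeg (b, w)`,
and codegrees are less than `s`. -/
def S_LINK : Prop :=
  ∀ (n s : ℕ) (H : Finset (Finset (Fin n))), (∀ e ∈ H, e.card = 3) →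
    (∀ b w : Fin n, b ≠ w → (H.filter (fun e => b ∈ e ∧ w ∈ e)).card < s) →
    6 * H.card ≤ s * ∑ b, (nbr H b).card

/-- DIFF.  Neighbourhoods of different vertices are far from each other.

Proof.  Let `T = {e ∈ H : exactly one of b, b' is in e}`, `l e = (e.erase b).erase b'`, a set of two
points for `e ∈ T`.  Some `s` members of `T` have by EXT at least `s + 4` points, at most two of them
are `b, b'`: so the union of their `l e` has at least `s + 2` points.  FOREST: `|V_T| ≤ s (q + 1)`,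
where `V_T = T.biUnion l` and `q = |Q|`, `Q` the set of `x ∈ V_T` in exactly one `l e`, `e ∈ T`.  Let
`J = {w : {b, b', w} ∈ H}`, `|J| < s` by COD.  If `x ∈ Q` is in both neighbourhoods then `x ∈ J`:
`x` is in some `e ∋ b` and in some `e' ∋ b'`; if `b' ∉ e` and `b ∉ e'` these are two members of `T`
through `x`, not possible; so `b' ∈ e` or `b ∈ e'` and `{b, b', x} ∈ H`.  And `x ∈ Q` is in at least
one of the two neighbourhoods.  So `q ≤ |N(b) Δ N(b')| + s - 1`.  Finally `x ∈ N(b)` is `b'`, or in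
`J`, or in `V_T`.  Together `|N(b)| ≤ 1 + (s - 1) + s (|N(b) Δ N(b')| + s)`. -/
def S_DIFF : Prop :=
  S_FOREST → S_EXT → S_COD → ∀ (n s : ℕ) (H : Finset (Finset (Fin n))), 1 ≤ s → s + 3 ≤ n →
    Sparse s H → ∀ b b' : Fin n, b ≠ b' →
      (nbr H b).card ≤ s * (symmDiff (nbr H b) (nbr H b')).card + s ^ 2 + s

/-- DYA.  The dyadic sum.

Proof.  `x = n ^ (1 - 1 / d) ≥ 1`.  Let `r₀ = ⌈22 x⌉ + s`, `s + 1 ≤ r₀ ≤ 24 s x`.  For every `b`:
`f b ≤ 2 s r₀ + ∑_{j < n} 2 ^ (j + 1) (2 s r₀) [2 s r₀ 2 ^ j ≤ f b]` (if `f b ≥ 2 s r₀` take the largest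
`j` with `2 s r₀ 2 ^ j ≤ f b`; `j < 2 ^ j ≤ f b ≤ n`).  For `r = r₀ 2 ^ j ≤ n` the number of `b` with
`2 s r ≤ f b` is at most `(22 n / (r₀ 2 ^ j)) ^ d ≤ (n / x) ^ d 2 ^ (- j d) = n 2 ^ (- j d)`; for `r > n`
it is zero.  So `∑ f b ≤ 2 s r₀ n (1 + ∑_j 2 ^ (j + 1) 2 ^ (- j d)) ≤ 2 s r₀ n (1 + 4) = 10 s r₀ n ≤
240 s ^ 2 x n`, as `d ≥ 2`. -/
def S_DYA : Prop :=
  ∀ (n d s : ℕ) (f : Fin n → ℕ), 1 ≤ n → 2 ≤ d → 1 ≤ s → (∀ b, f b ≤ n) →
    (∀ r : ℕ, s + 1 ≤ r → r ≤ n →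
      ((univ.filter (fun b => 2 * s * r ≤ f b)).card : ℝ) ≤ (22 * n / r) ^ d) →
    ((∑ b, f b : ℕ) : ℝ) ≤ 240 * (s : ℝ) ^ 2 * (n : ℝ) ^ (2 - 1 / (d : ℝ))

/-! ### The construction for the lower bound -/

/-- SIX.  In a linear triple system without triangles (three different edges meeting pairwise in
three different points) every set of at most six points spans at most two edges.

Proof.  Suppose `e₁, e₂, e₃ ⊆ S` are three different edges, `|S| ≤ 6`.  Two different edges share at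
most one point.  `|e₁ ∪ e₂| ≥ 5`, so `|e₃ \ (e₁ ∪ e₂)| ≤ 1` and `|e₃ ∩ (e₁ ∪ e₂)| ≥ 2`; since
`|e₃ ∩ e₁|, |e₃ ∩ e₂| ≤ 1`, `e₃` meets `e₁` in one point `z` and `e₂` in one point `y ≠ z`, and
`e₁ ∩ e₂` is not empty, since otherwise `e₁ ∪ e₂ = S` and `|e₃| ≤ 2`; so `e₁ ∩ e₂ = {x}`, and
`x ≠ y` (else `y = x ∈ e₁ ∩ e₃ = {z}`), `x ≠ z`: a triangle. -/
def S_SIX : Prop :=
  ∀ (V : Type) [DecidableEq V] (H : Finset (Finset V)),
    (∀ e ∈ H, e.card = 3) →
    (∀ e ∈ H, ∀ f ∈ H, e ≠ f → (e ∩ f).card ≤ 1) →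
    (∀ e ∈ H, ∀ f ∈ H, ∀ g ∈ H, e ≠ f → f ≠ g → e ≠ g → ∀ x y z : V, x ∈ e → x ∈ f → y ∈ f →
      y ∈ g → z ∈ e → z ∈ g → x ≠ y → y ≠ z → x ≠ z → False) →
    ∀ S : Finset V, S.card ≤ 6 → (H.filter (fun e => e ⊆ S)).card < 3

/-- integer points of the sphere of squared radius `r` (all of them have coordinates of absolute
value at most `r`) -/
noncomputable def sph (D r : ℕ) : Finset (Fin D → ℤ) :=
  (Fintype.piFinset (fun _ => Finset.Icc (-(r : ℤ)) r)).filter (fun a => ∑ i, a i ^ 2 = (r : ℤ))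

/-- The vertices: two copies of `(ZMod N)^D` and one of `(ZMod (2 N))^D`. -/
abbrev Vt (D N : ℕ) : Type := ((Fin D → ZMod N) ⊕ (Fin D → ZMod N)) ⊕ (Fin D → ZMod (2 * N))

/-- doubling `ZMod N → ZMod (2 N)` -/
def dbl {N : ℕ} (u : ZMod N) : ZMod (2 * N) := ((2 * (u.val) : ℕ) : ZMod (2 * N))

/-- The triple of `u` and `a`: `u` (first copy), `w = u + a` (second copy), `y = 2 u + a`. -/
noncomputable def tri {D N : ℕ} [NeZero N] (u : Fin D → ZMod N) (a : Fin D → ℤ) : Finset (Vt D N) :=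
  {Sum.inl (Sum.inl u), Sum.inl (Sum.inr (fun i => u i + (a i : ZMod N))),
    Sum.inr (fun i => dbl (u i) + (a i : ZMod (2 * N)))}

instance (N : ℕ) [NeZero N] : NeZero (2 * N) := ⟨Nat.mul_ne_zero two_ne_zero (NeZero.ne N)⟩

/-- The triple system. -/
noncomputable def HS (D N r : ℕ) [NeZero N] : Finset (Finset (Vt D N)) :=
  (univ ×ˢ sph D r).image (fun p : (Fin D → ZMod N) × (Fin D → ℤ) => tri p.1 p.2)

/-- DBL.  `dbl (u + a) = dbl u + 2 a`, and `dbl` is injective.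

Proof.  `(u + a).val` is congruent to `u.val + a` modulo `N`, so twice these numbers are congruent
modulo `2 N`.  Injective: `2 u.val` and `2 v.val` are less than `2 N`. -/
def S_DBL : Prop :=
  (∀ (N : ℕ) [NeZero N] (u : ZMod N) (a : ℤ),
    dbl (u + (a : ZMod N)) = dbl u + 2 * (a : ZMod (2 * N))) ∧
  (∀ (N : ℕ) [NeZero N] (u v : ZMod N), dbl u = dbl v → u = v)

/-- LIN.  Basic facts on the construction, for `R` with `r ≤ R ^ 2` (so that all the coordinates of
the members of `sph D r` are at most `R` in absolute value) and `4 R < N`: the triples have three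
elements, their number is `N ^ D |sph D r|`, two different triples share at most one point, and
there is no triangle.

Proof.  Elements of `sph D r` that are congruent modulo `N` are equal, since their coordinates
differ by at most `2 R < N`.  `dbl (u + a) = dbl u + 2 a` for an integer `a` (well defined modulo
`2 N`).  With `w = u + a`, `y = 2 u + a` we have `y = 2 w - a`.  So any two of `u, w, y` determine
`a` (as `w - u`, `y - 2 u`, `2 w - y`) and then the third: two triples with two common points are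
equal (the points in a triple lie in different parts).  Triangle `e, f, g` with `x ∈ e ∩ f`,
`y ∈ f ∩ g`, `z ∈ e ∩ g` different: any two of `x, y, z` are in a common triple, so they are in the
three different parts; say they are `u, w, y'` in some order; `w = u + a`, `y' = 2 u + a'`,
`y' = 2 w - a''` with `a, a', a''` in the sphere (belonging to the three triples `e, f, g` in some
order), hence `2 a = a' + a''` modulo `2 N`, and in `ℤ` since all coordinates of `2 a - a' - a''` are at most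
`4 R < 2 N`; strict convexity: `∑ (a' - a'')^2 = 2 ∑ a'^2 + 2 ∑ a''^2 - ∑ (a' + a'')^2 = 4 r - 4 r = 0`, so
`a = a' = a''` and two of the triples are equal, a contradiction. -/
def S_LIN : Prop :=
  S_DBL → ∀ (D N r R : ℕ) [NeZero N], 1 ≤ D → r ≤ R ^ 2 → 4 * R < N →
    (∀ e ∈ HS D N r, e.card = 3) ∧
    (HS D N r).card = N ^ D * (sph D r).card ∧
    (∀ e ∈ HS D N r, ∀ f ∈ HS D N r, e ≠ f → (e ∩ f).card ≤ 1) ∧
    (∀ e ∈ HS D N r, ∀ f ∈ HS D N r, ∀ g ∈ HS D N r, e ≠ f → f ≠ g → e ≠ g →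
      ∀ x y z : Vt D N, x ∈ e → x ∈ f → y ∈ f → y ∈ g → z ∈ e → z ∈ g →
        x ≠ y → y ≠ z → x ≠ z → False)

/-- a common triple of `u` (first part) and `w` (second part) -/
def UW {D N : ℕ} (r : ℕ) (u w : Fin D → ZMod N) : Prop :=
  ∃ a ∈ sph D r, w = fun i => u i + (a i : ZMod N)

/-- a common triple of `u` (first part) and `y` (third part) -/
def UY {D N : ℕ} (r : ℕ) (u : Fin D → ZMod N) (y : Fin D → ZMod (2 * N)) : Prop :=
  ∃ a ∈ sph D r, y = fun i => dbl (u i) + (a i : ZMod (2 * N))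

/-- a common triple of `w` (second part) and `y` (third part) -/
def WY {D N : ℕ} (r : ℕ) (w : Fin D → ZMod N) (y : Fin D → ZMod (2 * N)) : Prop :=
  ∃ a ∈ sph D r, y = fun i => dbl (w i) - (a i : ZMod (2 * N))

/-- adjacency in the shadow -/
def Adj {D N : ℕ} (r : ℕ) : Vt D N → Vt D N → Prop
  | Sum.inl (Sum.inl u), Sum.inl (Sum.inr w) => UW r u w
  | Sum.inl (Sum.inr w), Sum.inl (Sum.inl u) => UW r u w
  | Sum.inl (Sum.inl u), Sum.inr y => UY r u y
  | Sum.inr y, Sum.inl (Sum.inl u) => UY r u y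
  | Sum.inl (Sum.inr w), Sum.inr y => WY r w y
  | Sum.inr y, Sum.inl (Sum.inr w) => WY r w y
  | _, _ => False

/-- NBR.  The neighbours in `HS D N r`.

Proof.  Two different points of `tri u a` lie in different parts.  First and second part: `u` and
`u + a`.  First and third part: `u` and `2 u + a`.  Second and third part: `w = u + a` and
`y = dbl u + a = dbl (u + a) - a = dbl w - a`; conversely, if `y = dbl w - a` take `u = w - a`, then
`tri u a` contains `w` and `dbl u + a = dbl w - 2 a + a = y`. -/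
def S_NBR : Prop :=
  S_DBL → ∀ (D N r : ℕ) [NeZero N] (v x : Vt D N), x ∈ nbr (HS D N r) v ↔ Adj r v x

/-- VLA.  Linear algebra.

Proof.  For a vector `δ` let `φ δ = (1, δ, ∑ δ^2)`, a vector of `ℚ ^ (D + 2)`.  The function
`∑ (c + m δ)^2 - r` is a linear functional `F` of `φ δ` with the coefficients
`(∑ c^2 - r, 2 m c, m ^ 2)`.  The functionals `F_i` (`c i`, `m i`) satisfy `F_i (φ (δ j)) = 0` for
`j ≠ i` and `F_i (φ (δ i)) ≠ 0`, so the `s` vectors `φ (δ j)` are linearly independent.  They are all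
in the kernel of the functional `F_0` of `c₀, m₀`, which is not zero since `m₀ ≠ 0`, and has
dimension `D + 1`.  (Or: `F_0` and the `F_i` are `s + 1` linearly independent functionals on a space of
dimension `D + 2`.) -/
def S_VLA : Prop :=
  ∀ (D s : ℕ) (r : ℤ) (δ : Fin s → Fin D → ℤ) (m₀ : ℤ) (c₀ : Fin D → ℤ) (m : Fin s → ℤ)
    (c : Fin s → Fin D → ℤ), m₀ ≠ 0 →
    (∀ j, ∑ h, (c₀ h + m₀ * δ j h) ^ 2 = r) →
    (∀ i j, i ≠ j → ∑ h, (c i h + m i * δ j h) ^ 2 = r) →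
    (∀ j, ∑ h, (c j h + m j * δ j h) ^ 2 ≠ r) → s ≤ D + 1

/-- VC1.  First part: sets of `u` all whose nonempty subsets are traces of neighbourhoods of vertices
of the second or third part.

Proof.  For `s = S.card ≤ 1` nothing is to be shown.  Let `u_j`, `j : Fin s`, be the elements of
`S` (`S.equivFin`), `s ≥ 2`.  Let `v_*` be a vertex with trace `S`, `v_i` a vertex with trace
`S.erase u_i` (not empty).  Coordinates of members of `sph D r` are at most `R` in absolute value.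
There are integer vectors `δ_j` with `u_j = u_0 + δ_j` modulo `N` and with `|δ_j - δ_k| ≤ 2 R`
coordinatewise: if `v_* = w`, `w = u_j + a_j`, take `δ_j = a_0 - a_j`; if `v_* = y`,
`y = dbl u_j + a_j`, then `dbl u_j - dbl u_0 = a_0 - a_j` modulo `2 N`, so `a_0 - a_j` is even (all
values of `dbl` are even), `δ_j = (a_0 - a_j) / 2`, and `u_j = u_0 + δ_j` as `dbl` is injective.
For `v = v_i` choose `k ≠ i` (for `v_*` take `k = 0`).  If `v = w'` with `w' = u_k + a'` modulo `N`,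
put `c = a' + δ_k`; then `w' = u_j + (c - δ_j)` modulo `N` for all `j`, and `UW r u_j w'` iff
`∑ (c - δ_j)^2 = r`: if the sum is `r` then `c - δ_j ∈ sph D r`; if `w' = u_j + a'_j` with
`a'_j ∈ sph D r` then the coordinates of `c - δ_j - a'_j = a' + (δ_k - δ_j) - a'_j` are at most
`4 R < N` in absolute value and zero modulo `N`, so `c - δ_j = a'_j`.
If `v = y'` with `y' = dbl u_k + a'` modulo `2 N`, put `c = a' + 2 δ_k`; `y' = dbl u_j + (c - 2 δ_j)`,
and `UY r u_j y'` iff `∑ (c - 2 δ_j)^2 = r` (coordinates at most `6 R < 2 N`).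
So VLA applies with `m` equal to `-1` or `-2`. -/
def S_VC1 : Prop :=
  S_DBL → S_VLA → ∀ (D N r R : ℕ) [NeZero N], r ≤ R ^ 2 → 4 * R < N →
    ∀ S : Finset (Fin D → ZMod N),
      (∀ T ⊆ S, T.Nonempty → (∃ w : Fin D → ZMod N, ∀ u ∈ S, (u ∈ T ↔ UW r u w)) ∨
        (∃ y : Fin D → ZMod (2 * N), ∀ u ∈ S, (u ∈ T ↔ UY r u y))) → S.card ≤ D + 1

/-- VC2.  Second part.

Proof.  As for VC1: `w_j`, `j : Fin s`, the elements of `S`, `s ≥ 2`.  `δ_j` with
`w_j = w_0 + δ_j` modulo `N`, `|δ_j - δ_k| ≤ 2 R`: if `v_* = u`, `w_j = u + a_j`, take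
`δ_j = a_j - a_0`; if `v_* = y`, `y = dbl w_j - a_j`, then `dbl w_j - dbl w_0 = a_j - a_0`, so
`a_j - a_0` is even and `δ_j = (a_j - a_0) / 2`.  If `v = u'` with `w_k = u' + a'`, put
`c = a' - δ_k`; `w_j = u' + (c + δ_j)`, and `UW r u' w_j` iff `∑ (c + δ_j)^2 = r`.  If `v = y'`
with `y' = dbl w_k - a'`, put `c = a' - 2 δ_k`; `y' = dbl w_j - (c + 2 δ_j)`, and `WY r w_j y'` iff
`∑ (c + 2 δ_j)^2 = r`. -/
def S_VC2 : Prop :=
  S_DBL → S_VLA → ∀ (D N r R : ℕ) [NeZero N], r ≤ R ^ 2 → 4 * R < N →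
    ∀ S : Finset (Fin D → ZMod N),
      (∀ T ⊆ S, T.Nonempty → (∃ u : Fin D → ZMod N, ∀ w ∈ S, (w ∈ T ↔ UW r u w)) ∨
        (∃ y : Fin D → ZMod (2 * N), ∀ w ∈ S, (w ∈ T ↔ WY r w y))) → S.card ≤ D + 1

/-- VC3.  Third part.

Proof.  As for VC1: `y_j`, `j : Fin s`, the elements of `S`, `s ≥ 2`.  `δ_j` with
`y_j = y_0 + δ_j` modulo `2 N`, `|δ_j - δ_k| ≤ 2 R`: if `v_* = u`, `y_j = dbl u + a_j`, take
`δ_j = a_j - a_0`; if `v_* = w`, `y_j = dbl w - a_j`, take `δ_j = a_0 - a_j`.  If `v = u'` with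
`y_k = dbl u' + a'`, put `c = a' - δ_k`; `y_j = dbl u' + (c + δ_j)`, and `UY r u' y_j` iff
`∑ (c + δ_j)^2 = r`.  If `v = w'` with `y_k = dbl w' - a'`, put `c = a' + δ_k`;
`y_j = dbl w' - (c - δ_j)`, and `WY r w' y_j` iff `∑ (c - δ_j)^2 = r`.  All coordinates that occur are
at most `4 R < 2 N` in absolute value. -/
def S_VC3 : Prop :=
  S_DBL → S_VLA → ∀ (D N r R : ℕ) [NeZero N], r ≤ R ^ 2 → 4 * R < N →
    ∀ S : Finset (Fin D → ZMod (2 * N)),
      (∀ T ⊆ S, T.Nonempty → (∃ u : Fin D → ZMod N, ∀ y ∈ S, (y ∈ T ↔ UY r u y)) ∨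
        (∃ w : Fin D → ZMod N, ∀ y ∈ S, (y ∈ T ↔ WY r w y))) → S.card ≤ D + 1

/-- the conclusion of VCL: if all nonempty subsets of `S` are traces of neighbourhoods then
`|S| ≤ 3 D + 3` -/
def S_VCL : Prop :=
  ∀ (D N r R : ℕ) [NeZero N], r ≤ R ^ 2 → 4 * R < N →
    ∀ S : Finset (Vt D N),
      (∀ T ⊆ S, T.Nonempty → ∃ v : Vt D N, nbr (HS D N r) v ∩ S = T) → S.card ≤ 3 * D + 3

/-- VCA.  VCL from the parts.

Proof.  Let `S₁ S₂ S₃` be the three parts of `S` (as finsets of the component types, e.g.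
`S₁ = univ.filter (fun u => Sum.inl (Sum.inl u) ∈ S)`), `S.card = S₁.card + S₂.card + S₃.card`.  It is
enough to show that each has at most `D + 1` elements.  For a nonempty `T ⊆ S₁` its image in `S` is the
trace of some `nbr (HS D N r) v`, and by NBR (points of the same part are not adjacent, and `T` is not
empty) `v` is in the second or third part, and for `u ∈ S₁`, `u ∈ T ↔ Adj r v (inl (inl u))`; use VC1.
The other parts in the same way. -/
def S_VCA : Prop :=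
  S_DBL → S_NBR → S_VLA → S_VC1 → S_VC2 → S_VC3 → S_VCL

/-- PIG.  Some sphere contains many integer points: for `D ≥ 1`, `m ≥ 1` there is `r ≤ D m ^ 2` with
`m ^ D ≤ D m ^ 2 |sph D r|`.

Proof.  The `m ^ D` vectors with coordinates in `{0, ..., m - 1}` have squared length at most
`D (m - 1) ^ 2 ≤ D m ^ 2 - 1`, i.e. one of the `D m ^ 2` values `0, ..., D m ^ 2 - 1`; pigeonhole.
(`a_i ^ 2 ≤ r` implies `|a_i| ≤ r`.) -/
def S_PIG : Prop :=
  ∀ (D m : ℕ), 1 ≤ D → 1 ≤ m → ∃ r : ℕ, r ≤ D * m ^ 2 ∧ m ^ D ≤ D * m ^ 2 * (sph D r).card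

/-- TRANS.  Transfer of a triple system to `Fin n`.

Proof.  Take an injection `ι : V → Fin n`, `H' = H.image (fun e => e.image ι)`.  For `S` with six
elements let `S' = {v : ι v ∈ S}`, `S'.card ≤ 6`; the members of `H'` inside `S` are the images of
the members of `H` inside `S'`.  `nbr H' (ι v) = (nbr H v).image ι`, and `nbr H' w = ∅` for `w` not in
the range of `ι`.  If `univ.image (nbr H')` shatters `S` then each `x ∈ S` is in some `nbr H' v'` (trace
`{x}`), so `x` is in the range of `ι`, `S = S'.image ι`; for a nonempty `T' ⊆ S'` the set `T'.image ι` is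
the trace of some `nbr H' v'`, `v'` is in the range of `ι` since the trace is not empty, `v' = ι v`, and
`nbr H v ∩ S' = T'`.  So `S.card = S'.card ≤ m`. -/
def S_TRANS : Prop :=
  ∀ (V : Type) [Fintype V] [DecidableEq V] (H : Finset (Finset V)) (n m : ℕ),
    Fintype.card V ≤ n → (∀ e ∈ H, e.card = 3) →
    (∀ S : Finset V, S.card ≤ 6 → (H.filter (fun e => e ⊆ S)).card < 3) →
    (∀ S : Finset V, (∀ T ⊆ S, T.Nonempty → ∃ v : V, nbr H v ∩ S = T) → S.card ≤ m) →
    ∃ H' : Finset (Finset (Fin n)), Sparse 3 H' ∧ (univ.image (nbr H')).vcDim ≤ m ∧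
      H'.card = H.card

/-- ASY.  The choice of the parameters.

Proof.  `x = n ^ (1 / D)`, `m = ⌊x / (32 D)⌋`, for `n ≥ (32 D) ^ D`: `x ≥ 32 D`, `m ≥ 1`,
`m ≥ x / (64 D)`.  `2 N ^ D + (2 N) ^ D = (2 + 2 ^ D) (8 D m) ^ D ≤ (32 D m) ^ D ≤ x ^ D = n` for
`N = 8 D m`, as `2 + 2 ^ D ≤ 4 ^ D`.  If `m ^ D ≤ D m ^ 2 q` then
`N ^ D q ≥ (8 D m) ^ D m ^ D / (D m ^ 2) ≥ m ^ (2 D - 2) ≥ (x / (64 D)) ^ (2 D - 2)
= (64 D) ^ (-(2 D - 2)) n ^ (2 - 2 / D)`. -/
def S_ASY : Prop :=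
  ∀ D : ℕ, 1 ≤ D → ∃ c : ℝ, 0 < c ∧ ∃ n₀ : ℕ, ∀ n : ℕ, n₀ ≤ n → ∃ m : ℕ, 1 ≤ m ∧
    2 * (8 * D * m) ^ D + (2 * (8 * D * m)) ^ D ≤ n ∧
    ∀ q : ℕ, m ^ D ≤ D * m ^ 2 * q →
      c * (n : ℝ) ^ (2 - 2 / (D : ℝ)) ≤ (((8 * D * m) ^ D * q : ℕ) : ℝ)

end Pool.Agent.W842.BV
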