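import Pool.Agent.W842.BV.Stms

/-!
# Assembly of the upper bound
-/

set_option autoImplicit false

namespace Pool.Agent.W842.BV

open Finset

theorem dist_nbr (hF : S_FOREST) (hE : S_EXT) (hC : S_COD) (hD : S_DIFF)
    {n s : ℕ} {H : Finset (Finset (Fin n))} (hs : 1 ≤ s) (hn : s + 3 ≤ n) (hS : Sparse s H)
    {r : ℕ} (hr : s + 1 ≤ r) {b b' : Fin n} (hb : 2 * s * r ≤ (nbr H b).card) (hne : b ≠ b') :
    r ≤ (symmDiff (nbr H b) (nbr H b')).card := by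
  have h1 := hD hF hE hC n s H hs hn hS b b' hne
  have h3 : s * (2 * r) ≤ s * ((symmDiff (nbr H b) (nbr H b')).card + s + 1) := by
    calc s * (2 * r) = 2 * s * r := by ring
      _ ≤ (nbr H b).card := hb
      _ ≤ _ := h1
      _ = _ := by ring
  have h4 := Nat.le_of_mul_le_mul_left h3 (by omega)
  omega

/-- the packing bound for the vertices of large degree in the shadow -/
theorem pack (hF : S_FOREST) (hE : S_EXT) (hC : S_COD) (hD : S_DIFF) (hH : S_HAUS)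
    {n s : ℕ} {H : Finset (Finset (Fin n))} (hs : 1 ≤ s) (hn : s + 3 ≤ n) (hS : Sparse s H)
    (B : Finset (Fin n)) {r : ℕ} (hr : s + 1 ≤ r) (hrn : r ≤ n)
    (hB : ∀ b ∈ B, 2 * s * r ≤ (nbr H b).card) :
    (B.card : ℝ) ≤ (22 * n / r) ^ (B.image (nbr H)).vcDim := by
  have hinj : Set.InjOn (nbr H) B := by
    intro b hb b' hb' h
    by_contra hne
    have h5 := dist_nbr hF hE hC hD hs hn hS hr (hB b hb) hne
    rw [h, symmDiff_self] at h5
    simp at h5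
    omega
  have hcard : (B.image (nbr H)).card = B.card := Finset.card_image_of_injOn hinj
  rw [← hcard]
  have h6 := hH (Fin n) (B.image (nbr H)) r (by omega) ?_ (by simpa using hrn)
  · simpa using h6
  · intro A hA A' hA' hne
    obtain ⟨b, hb, rfl⟩ := Finset.mem_image.1 hA
    obtain ⟨b', hb', rfl⟩ := Finset.mem_image.1 hA'
    exact dist_nbr hF hE hC hD hs hn hS hr (hB b hb) (fun h => hne (by rw [h]))

theorem nbr_card_le {n : ℕ} (H : Finset (Finset (Fin n))) (b : Fin n) : (nbr H b).card ≤ n := by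
  have := Finset.card_le_univ (nbr H b)
  simpa using this

/-- The upper bound for the number of edges. -/
theorem upper (hF : S_FOREST) (hE : S_EXT) (hC : S_COD) (hD : S_DIFF) (hH : S_HAUS)
    (hL : S_LINK) (hY : S_DYA)
    {n s d : ℕ} {H : Finset (Finset (Fin n))} (hs : 1 ≤ s) (hn : s + 3 ≤ n) (hS : Sparse s H)
    (hd : 2 ≤ d) (hv : (univ.image (nbr H)).vcDim ≤ d) :
    (H.card : ℝ) ≤ 40 * (s : ℝ) ^ 3 * (n : ℝ) ^ (2 - 1 / (d : ℝ)) := by
  have h1 := hL n s H hS.1 (hC hE n s H hs hn hS)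
  have h2 := hY n d s (fun b => (nbr H b).card) (by omega) hd hs (nbr_card_le H) ?_
  · have h3 : (6 : ℝ) * H.card ≤ s * ((∑ b, (nbr H b).card : ℕ) : ℝ) := by exact_mod_cast h1
    have hs0 : (0 : ℝ) ≤ s := Nat.cast_nonneg s
    have h4 : (s : ℝ) * ((∑ b, (nbr H b).card : ℕ) : ℝ) ≤
        s * (240 * (s : ℝ) ^ 2 * (n : ℝ) ^ (2 - 1 / (d : ℝ))) :=
      mul_le_mul_of_nonneg_left h2 hs0
    have h5 : (6 : ℝ) * H.card ≤ 6 * (40 * (s : ℝ) ^ 3 * (n : ℝ) ^ (2 - 1 / (d : ℝ))) := by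
      calc (6 : ℝ) * H.card ≤ _ := h3
        _ ≤ _ := h4
        _ = _ := by ring
    linarith
  · intro r hr hrn
    have h3 := pack hF hE hC hD hH hs hn hS (univ.filter (fun b => 2 * s * r ≤ (nbr H b).card))
      hr hrn (by intro b hb; exact (Finset.mem_filter.1 hb).2)
    refine h3.trans ?_
    have hr0 : (0 : ℝ) < r := by exact_mod_cast (by omega : 0 < r)
    have hone : (1 : ℝ) ≤ 22 * n / r := by
      rw [le_div_iff₀ hr0]
      have : (r : ℝ) ≤ n := by exact_mod_cast hrn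
      linarith
    refine pow_le_pow_right₀ hone (le_trans ?_ hv)
    exact Finset.vcDim_mono (Finset.image_subset_image (Finset.filter_subset _ _))

/-- The local form. -/
theorem local_bound (hF : S_FOREST) (hE : S_EXT) (hC : S_COD) (hD : S_DIFF) (hH : S_HAUS)
    {n s : ℕ} {H : Finset (Finset (Fin n))} (hs : 1 ≤ s) (hn : s + 3 ≤ n) (hS : Sparse s H)
    {ε : ℝ} (hε : 0 < ε) (hεn : 2 * (s : ℝ) * (s + 2) ≤ ε * n)
    (B : Finset (Fin n)) (hB : ∀ b ∈ B, ε * n ≤ (nbr H b).card) :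
    (B.card : ℝ) ≤ (88 * s / ε) ^ (B.image (nbr H)).vcDim := by
  have hs0 : (1 : ℝ) ≤ s := by exact_mod_cast hs
  rcases B.eq_empty_or_nonempty with hBe | ⟨b₀, hb₀⟩
  · subst hBe
    simp only [Finset.card_empty, Nat.cast_zero]
    positivity
  set q : ℝ := ε * n / (2 * s) with hq
  have hq2 : (s : ℝ) + 2 ≤ q := by
    rw [hq, le_div_iff₀ (by positivity)]
    linarith
  have hq0 : 0 ≤ q := by linarith
  have hfl := Nat.floor_le hq0
  have hfl2 := Nat.lt_floor_add_one q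
  have hr : s + 1 ≤ ⌊q⌋₊ := by
    apply Nat.le_floor
    push_cast
    linarith
  have h2s : 2 * (s : ℝ) * ⌊q⌋₊ ≤ ε * n := by
    calc 2 * (s : ℝ) * ⌊q⌋₊ ≤ 2 * s * q := by gcongr
      _ = ε * n := by rw [hq]; field_simp
  have hB' : ∀ b ∈ B, 2 * s * ⌊q⌋₊ ≤ (nbr H b).card := by
    intro b hb
    have := h2s.trans (hB b hb)
    exact_mod_cast this
  have hrn : ⌊q⌋₊ ≤ n := by
    have h1 := (hB' b₀ hb₀).trans (nbr_card_le H b₀)
    have h2 : 1 * ⌊q⌋₊ ≤ 2 * s * ⌊q⌋₊ := Nat.mul_le_mul_right _ (by omega)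
    omega
  refine (pack hF hE hC hD hH hs hn hS B hr hrn hB').trans ?_
  have hfl0 : (0 : ℝ) < ⌊q⌋₊ := by exact_mod_cast (by omega : 0 < ⌊q⌋₊)
  refine pow_le_pow_left₀ (by positivity) ?_ _
  rw [div_le_div_iff₀ hfl0 hε]
  -- 22 n ε ≤ 88 s floor
  have h3 : q / 2 ≤ ⌊q⌋₊ := by linarith
  have h4 : ε * n = 2 * s * q := by rw [hq]; field_simp
  calc 22 * (n : ℝ) * ε = 22 * (ε * n) := by ring
    _ = 88 * s * (q / 2) := by rw [h4]; ring
    _ ≤ 88 * s * ⌊q⌋₊ := by gcongr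

/-- Dense sparse systems have large VC-dimension. -/
theorem vc_large (hF : S_FOREST) (hE : S_EXT) (hC : S_COD) (hD : S_DIFF) (hH : S_HAUS)
    (hL : S_LINK) (hY : S_DYA)
    {n s : ℕ} {H : Finset (Finset (Fin n))} (hs : 1 ≤ s) (hn : s + 3 ≤ n) (hS : Sparse s H)
    {ε : ℝ} (hε : 0 < ε) (hH' : ε * (n : ℝ) ^ 2 ≤ H.card) :
    Real.log n ≤ (max 2 (univ.image (nbr H)).vcDim : ℕ) * Real.log (40 * (s : ℝ) ^ 3 / ε) := by
  set d : ℕ := max 2 (univ.image (nbr H)).vcDim with hd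
  have hd2 : 2 ≤ d := le_max_left _ _
  have h1 := upper hF hE hC hD hH hL hY hs hn hS hd2 (le_max_right _ _)
  have hn0 : (0 : ℝ) < n := by exact_mod_cast (by omega : 0 < n)
  have hs0 : (0 : ℝ) < s := by exact_mod_cast hs
  have hd0 : (0 : ℝ) < d := by exact_mod_cast (by omega : 0 < d)
  have h2 : ε * (n : ℝ) ^ 2 ≤ 40 * (s : ℝ) ^ 3 * (n : ℝ) ^ (2 - 1 / (d : ℝ)) := hH'.trans h1
  have h3 : (n : ℝ) ^ (2 - 1 / (d : ℝ)) = (n : ℝ) ^ 2 / (n : ℝ) ^ (1 / (d : ℝ)) := by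
    rw [Real.rpow_sub hn0]
    norm_num
  rw [h3] at h2
  have hp : (0 : ℝ) < (n : ℝ) ^ (1 / (d : ℝ)) := Real.rpow_pos_of_pos hn0 _
  have hn2 : (0 : ℝ) < (n : ℝ) ^ 2 := by positivity
  have h4 : (n : ℝ) ^ (1 / (d : ℝ)) ≤ 40 * (s : ℝ) ^ 3 / ε := by
    rw [le_div_iff₀ hε]
    rw [← mul_div_assoc, le_div_iff₀ hp] at h2
    have h5 : (ε * (n : ℝ) ^ (1 / (d : ℝ))) * (n : ℝ) ^ 2 ≤ (40 * (s : ℝ) ^ 3) * (n : ℝ) ^ 2 := by
      calc _ = ε * (n : ℝ) ^ 2 * (n : ℝ) ^ (1 / (d : ℝ)) := by ring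
        _ ≤ _ := h2
    have := le_of_mul_le_mul_right h5 hn2
    linarith
  have h5 := Real.log_le_log hp h4
  rw [Real.log_rpow hn0] at h5
  calc Real.log n = d * (1 / (d : ℝ) * Real.log n) := by field_simp
    _ ≤ d * Real.log (40 * (s : ℝ) ^ 3 / ε) := by gcongr

end Pool.Agent.W842.BV
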